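import Mathlib

set_option autoImplicit false

/-!
# Second differences of sublinear functions averaged over a log-concave density

No symmetry is assumed. For independent `x`, `v` with a log-concave density on a space of dimension
`n` and a sublinear function `η`, the rotation `(x, v) ↦ ((1-θ) x + θ v, θ x + (1-θ) v)` compares the
second difference of `η` at `x - s v` in the direction `v`, `θ = s / (1 + s)`, with the one at `x`.
-/

namespace Pool.Agent.T2h52.MS

open MeasureTheory Set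
open scoped ENNReal NNReal

/-- the second difference of `η` -/
def sd {F : Type*} [AddCommGroup F] (η : F → ℝ) (y v : F) : ℝ := η (y + v) + η (y - v) - 2 * η y

section Sublinear

variable {F : Type*} [AddCommGroup F] [Module ℝ F]

/-- sublinear functions -/
structure Sub (η : F → ℝ) : Prop where
  add : ∀ x y, η (x + y) ≤ η x + η y
  smul : ∀ c : ℝ, 0 ≤ c → ∀ x, η (c • x) = c * η x

variable {η : F → ℝ}

theorem Sub.zero (h : Sub η) : η 0 = 0 := by
  have := h.smul 0 le_rfl 0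
  simpa using this

theorem Sub.width_nonneg (h : Sub η) (v : F) : 0 ≤ η v + η (-v) := by
  have h1 := h.add v (-v)
  rw [add_neg_cancel, h.zero] at h1
  exact h1

theorem Sub.sd_nonneg (h : Sub η) (y v : F) : 0 ≤ sd η y v := by
  unfold sd
  have h1 := h.add (y + v) (y - v)
  have h2 : y + v + (y - v) = (2 : ℝ) • y := by rw [two_smul]; abel
  rw [h2, h.smul 2 (by norm_num)] at h1
  linarith

/-- the scaling inequality -/
theorem Sub.scale (h : Sub η) (s δ : ℝ) (hs : 0 ≤ s) (hs1 : s < 1) (hδ : 0 ≤ δ) (hδs : δ ≤ s ∨ s = 0)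
    (x v : F) :
    (1 / (1 + s)) * sd η x (δ • v)
      ≤ sd η ((1 - s) • x) (δ • ((s / (1 + s)) • x + (1 / (1 + s)) • v)) := by
  have h1s : 0 < 1 + s := by linarith
  set θ : ℝ := s / (1 + s) with hθ
  have hθ0 : 0 ≤ θ := by positivity
  have h1θ : 1 / (1 + s) = 1 - θ := by rw [hθ]; field_simp; ring
  rw [h1θ]
  have h1θ0 : 0 ≤ 1 - θ := by rw [← h1θ]; positivity
  have hA : 1 - s + δ * θ ≤ 1 - θ := by
    have e : s - θ = s * θ := by rw [hθ]; field_simp; ring
    have : δ * θ ≤ s * θ := by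
      rcases hδs with h' | h'
      · exact mul_le_mul_of_nonneg_right h' hθ0
      · have : θ = 0 := by rw [hθ, h']; simp
        rw [this]; simp
    linarith
  have hB : 1 - s - δ * θ ≤ 1 - θ := by nlinarith [mul_nonneg hδ hθ0]
  unfold sd
  -- the three points
  have e1 : (1 - s) • x + δ • (θ • x + (1 - θ) • v) = (1 - s + δ * θ) • x + (δ * (1 - θ)) • v := by
    module
  have e2 : (1 - s) • x - δ • (θ • x + (1 - θ) • v) = (1 - s - δ * θ) • x - (δ * (1 - θ)) • v := by
    module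
  rw [e1, e2]
  have i1 : (1 - θ) * η (x + δ • v)
      ≤ η ((1 - s + δ * θ) • x + (δ * (1 - θ)) • v) + (1 - θ - (1 - s + δ * θ)) * η x := by
    rw [← h.smul _ h1θ0, ← h.smul _ (by linarith : 0 ≤ 1 - θ - (1 - s + δ * θ))]
    refine le_trans (le_of_eq ?_) (h.add _ _)
    congr 1
    module
  have i2 : (1 - θ) * η (x - δ • v)
      ≤ η ((1 - s - δ * θ) • x - (δ * (1 - θ)) • v) + (1 - θ - (1 - s - δ * θ)) * η x := by
    rw [← h.smul _ h1θ0, ← h.smul _ (by linarith : 0 ≤ 1 - θ - (1 - s - δ * θ))]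
    refine le_trans (le_of_eq ?_) (h.add _ _)
    congr 1
    module
  have i3 : η ((1 - s) • x) = (1 - s) * η x := h.smul _ (by linarith) _
  rw [i3]
  linarith

/-- the telescoping sum of the second differences on a line -/
theorem Sub.tele (h : Sub η) (x v : F) (δ : ℝ) (hδ : 0 ≤ δ) (N : ℕ) :
    ∑ i ∈ Finset.range N, sd η (x - ((i : ℝ) * δ) • v) (δ • v) ≤ δ * (η v + η (-v)) := by
  have key : ∑ i ∈ Finset.range N, sd η (x - ((i : ℝ) * δ) • v) (δ • v)
      = η (x - ((N : ℝ) * δ) • v) - η (x - (((N : ℝ) - 1) * δ) • v) - η x + η (x + δ • v) := by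
    induction N with
    | zero =>
      simp only [Finset.range_zero, Finset.sum_empty, Nat.cast_zero]
      have e1 : x - ((0 : ℝ) * δ) • v = x := by module
      have e2 : x - (((0 : ℝ) - 1) * δ) • v = x + δ • v := by module
      rw [e1, e2]
      ring
    | succ N ih =>
      rw [Finset.sum_range_succ, ih]
      unfold sd
      have e1 : x - ((N : ℝ) * δ) • v + δ • v = x - (((N : ℝ) - 1) * δ) • v := by module
      have e2 : x - ((N : ℝ) * δ) • v - δ • v = x - (((N + 1 : ℕ) : ℝ) * δ) • v := by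
        push_cast
        module
      have e3 : x - ((((N + 1 : ℕ) : ℝ) - 1) * δ) • v = x - ((N : ℝ) * δ) • v := by
        push_cast
        module
      rw [e1, e2, e3]
      ring
  rw [key]
  have i1 : η (x - ((N : ℝ) * δ) • v) ≤ η (x - (((N : ℝ) - 1) * δ) • v) + δ * η (-v) := by
    rw [← h.smul δ hδ]
    refine le_trans (le_of_eq ?_) (h.add _ _)
    congr 1
    module
  have i2 : η (x + δ • v) ≤ η x + δ * η v := by
    rw [← h.smul δ hδ]
    exact h.add _ _
  linarith

end Sublinear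

section Rotation

variable {F : Type*} [NormedAddCommGroup F] [NormedSpace ℝ F] [FiniteDimensional ℝ F]
  [MeasurableSpace F] [BorelSpace F] (μ : Measure F) [μ.IsAddHaarMeasure]

/-- an affine change of variables -/
theorem lint_aff (f : F → ℝ≥0∞) (hf : Measurable f) (c : ℝ) (hc : 0 < c) (b : F) :
    ∫⁻ x, f x ∂μ = ENNReal.ofReal (c ^ Module.finrank ℝ F) * ∫⁻ x, f (c • x + b) ∂μ := by
  have h0 : ∫⁻ x, f (x + b) ∂μ = ∫⁻ x, f x ∂μ := lintegral_add_right_eq_self f b
  have h1 := Measure.map_addHaar_smul μ hc.ne'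
  have hfb : Measurable fun x => f (x + b) := hf.comp (measurable_add_const b)
  have h2 : ∫⁻ x, f (c • x + b) ∂μ = ∫⁻ y, f (y + b) ∂(Measure.map (fun x : F => c • x) μ) :=
    (lintegral_map hfb (measurable_const_smul c)).symm
  have h3 : (Measure.map (fun x : F => c • x) μ)
      = ENNReal.ofReal |(c ^ Module.finrank ℝ F)⁻¹| • μ := h1
  rw [h2, h3, lintegral_smul_measure, smul_eq_mul, h0, abs_of_pos (by positivity), ← mul_assoc,
    ← ENNReal.ofReal_mul (by positivity), mul_inv_cancel₀ (by positivity), ENNReal.ofReal_one,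
    one_mul]

/-- the rotation in the plane of `x` and `v` -/
theorem lint_rot (Φ : F × F → ℝ≥0∞) (hΦ : Measurable Φ) (s : ℝ) (hs : 0 ≤ s) (hs1 : s < 1) :
    ∫⁻ v, ∫⁻ x, Φ (x, v) ∂μ ∂μ
      = ENNReal.ofReal (((1 - s) / (1 + s)) ^ Module.finrank ℝ F) *
        ∫⁻ x, ∫⁻ v, Φ ((1 / (1 + s)) • x + (s / (1 + s)) • v,
          (s / (1 + s)) • x + (1 / (1 + s)) • v) ∂μ ∂μ := by
  have h1s : 0 < 1 + s := by linarith
  have h1s' : 0 < 1 - s := by linarith
  set θ : ℝ := s / (1 + s) with hθ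
  have h1θ : 1 / (1 + s) = 1 - θ := by rw [hθ]; field_simp; ring
  have h1θ0 : 0 < 1 - θ := by rw [← h1θ]; positivity
  rw [h1θ]
  have e1 : ∀ v, ∫⁻ x, Φ (x, v) ∂μ
      = ENNReal.ofReal ((1 - s) ^ Module.finrank ℝ F) * ∫⁻ x, Φ ((1 - s) • x + s • v, v) ∂μ :=
    fun v => lint_aff μ (fun x => Φ (x, v)) (hΦ.comp measurable_prodMk_right) (1 - s) h1s' (s • v)
  simp only [e1]
  have m1 : Measurable fun z : F × F => Φ ((1 - s) • z.1 + s • z.2, z.2) :=
    hΦ.comp (((measurable_fst.const_smul (1 - s)).add (measurable_snd.const_smul s)).prodMk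
      measurable_snd)
  rw [lintegral_const_mul' _ _ ENNReal.ofReal_ne_top]
  rw [lintegral_lintegral_swap (f := fun v x => Φ ((1 - s) • x + s • v, v))
    (m1.comp measurable_swap).aemeasurable]
  have e2 : ∀ x, ∫⁻ v, Φ ((1 - s) • x + s • v, v) ∂μ
      = ENNReal.ofReal ((1 - θ) ^ Module.finrank ℝ F) *
        ∫⁻ v, Φ ((1 - θ) • x + θ • v, θ • x + (1 - θ) • v) ∂μ := by
    intro x
    have h := lint_aff μ (fun v => Φ ((1 - s) • x + s • v, v))
      (m1.comp measurable_prodMk_left) (1 - θ) h1θ0 (θ • x)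
    rw [h]
    congr 1
    refine lintegral_congr fun v => ?_
    have f1 : (1 - s) • x + s • ((1 - θ) • v + θ • x) = (1 - θ) • x + θ • v := by
      have g1 : s * (1 - θ) = θ := by rw [hθ]; field_simp; ring
      have g2 : 1 - s + s * θ = 1 - θ := by linarith
      calc (1 - s) • x + s • ((1 - θ) • v + θ • x)
          = (1 - s + s * θ) • x + (s * (1 - θ)) • v := by module
        _ = _ := by rw [g1, g2]
    rw [f1, add_comm ((1 - θ) • v)]
  simp only [e2]
  rw [lintegral_const_mul' _ _ ENNReal.ofReal_ne_top, ← mul_assoc,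
    ← ENNReal.ofReal_mul (by positivity), ← mul_pow]
  congr 4
  rw [← h1θ]
  field_simp

/-- The second differences at `x - s v` and at `x`. -/
theorem rot_le (r : F → ℝ≥0∞) (hr : Measurable r)
    (hlc : ∀ a b : F, ∀ s : ℝ, 0 < s → s < 1 → r a ^ s * r b ^ (1 - s) ≤ r (s • a + (1 - s) • b))
    (η : F → ℝ) (hη : Sub η) (hηc : Continuous η)
    (s δ t : ℝ) (hs : 0 ≤ s) (hst : s ≤ t) (ht1 : t < 1) (hδ : 0 ≤ δ) (hδs : δ ≤ s ∨ s = 0) :
    ENNReal.ofReal (((1 - t) / (1 + t)) ^ Module.finrank ℝ F * (1 / (1 + t))) *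
        ∫⁻ v, ∫⁻ x, r x * r v * ENNReal.ofReal (sd η x (δ • v)) ∂μ ∂μ
      ≤ ∫⁻ v, ∫⁻ x, r x * r v * ENNReal.ofReal (sd η (x - s • v) (δ • v)) ∂μ ∂μ := by
  have hs1 : s < 1 := by linarith
  have h1s : 0 < 1 + s := by linarith
  have h1s' : 0 < 1 - s := by linarith
  have hsdm : ∀ c : ℝ, Measurable fun z : F × F =>
      r z.1 * r z.2 * ENNReal.ofReal (sd η (z.1 - c • z.2) (δ • z.2)) := by
    intro c
    have h1 : Continuous fun z : F × F => sd η (z.1 - c • z.2) (δ • z.2) := by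
      unfold sd
      fun_prop
    exact ((hr.comp measurable_fst).mul (hr.comp measurable_snd)).mul h1.measurable.ennreal_ofReal
  rw [lint_rot μ (fun z : F × F =>
      r z.1 * r z.2 * ENNReal.ofReal (sd η (z.1 - s • z.2) (δ • z.2))) (hsdm s) s hs hs1]
  set θ : ℝ := s / (1 + s) with hθ
  have hθ0 : 0 ≤ θ := by positivity
  have h1θ : 1 / (1 + s) = 1 - θ := by rw [hθ]; field_simp; ring
  have h1θ0 : 0 < 1 - θ := by rw [← h1θ]; positivity
  have m0 := hsdm 0
  simp only [zero_smul, sub_zero] at m0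
  rw [lintegral_lintegral_swap (f := fun v x => r x * r v * ENNReal.ofReal (sd η x (δ • v)))
    (m0.comp measurable_swap).aemeasurable]
  rw [← lintegral_const_mul' _ _ ENNReal.ofReal_ne_top,
    ← lintegral_const_mul' _ _ ENNReal.ofReal_ne_top]
  refine lintegral_mono fun x => ?_
  rw [← lintegral_const_mul' _ _ ENNReal.ofReal_ne_top,
    ← lintegral_const_mul' _ _ ENNReal.ofReal_ne_top]
  refine lintegral_mono fun v => ?_
  simp only
  rw [h1θ]
  -- the density
  have hd : r x * r v ≤ r ((1 - θ) • x + θ • v) * r (θ • x + (1 - θ) • v) := by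
    rcases eq_or_lt_of_le hθ0 with h0 | h0
    · rw [← h0]; simp
    · have hθ1 : θ < 1 := by linarith
      have a1 := hlc x v (1 - θ) h1θ0 (by linarith)
      have a2 := hlc x v θ h0 hθ1
      rw [sub_sub_cancel] at a1
      calc r x * r v = (r x ^ (1 - θ) * r v ^ θ) * (r x ^ θ * r v ^ (1 - θ)) := by
            have b1 : r x = r x ^ (1 - θ) * r x ^ θ := by
              rw [← ENNReal.rpow_add_of_nonneg _ _ h1θ0.le hθ0]; simp
            have b2 : r v = r v ^ θ * r v ^ (1 - θ) := by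
              rw [← ENNReal.rpow_add_of_nonneg _ _ hθ0 h1θ0.le]; simp
            conv_lhs => rw [b1, b2]
            ring
        _ ≤ _ := mul_le_mul' a1 a2
  -- the second difference
  have hx : (1 - θ) • x + θ • v - s • (θ • x + (1 - θ) • v) = (1 - s) • x := by
    have g1 : s * (1 - θ) = θ := by rw [hθ]; field_simp; ring
    have g2 : 1 - θ - s * θ = 1 - s := by linarith
    calc (1 - θ) • x + θ • v - s • (θ • x + (1 - θ) • v)
        = (1 - θ - s * θ) • x + (θ - s * (1 - θ)) • v := by module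
      _ = _ := by rw [g1, g2, sub_self, zero_smul, add_zero]
  rw [hx]
  have hsc := hη.scale s δ hs hs1 hδ hδs x v
  rw [← hθ, h1θ] at hsc
  have hsd0 := hη.sd_nonneg x (δ • v)
  have h1t : 0 < 1 + t := by linarith
  have hc : ((1 - t) / (1 + t)) ^ Module.finrank ℝ F * (1 / (1 + t))
      ≤ ((1 - s) / (1 + s)) ^ Module.finrank ℝ F * (1 - θ) := by
    rw [← h1θ]
    have j1 : (1 - t) / (1 + t) ≤ (1 - s) / (1 + s) := by
      rw [div_le_div_iff₀ h1t h1s]
      nlinarith
    have j0 : 0 ≤ (1 - t) / (1 + t) := div_nonneg (by linarith) h1t.le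
    have j2 : 1 / (1 + t) ≤ 1 / (1 + s) := one_div_le_one_div_of_le h1s (by linarith)
    have j3 : 0 ≤ 1 / (1 + t) := by positivity
    exact mul_le_mul (pow_le_pow_left₀ j0 j1 _) j2 j3 (by positivity)
  calc ENNReal.ofReal (((1 - t) / (1 + t)) ^ Module.finrank ℝ F * (1 / (1 + t))) *
        (r x * r v * ENNReal.ofReal (sd η x (δ • v)))
      ≤ ENNReal.ofReal (((1 - s) / (1 + s)) ^ Module.finrank ℝ F * (1 - θ)) *
        (r x * r v * ENNReal.ofReal (sd η x (δ • v))) := by gcongr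
    _ = ENNReal.ofReal (((1 - s) / (1 + s)) ^ Module.finrank ℝ F) *
        (r x * r v * ENNReal.ofReal ((1 - θ) * sd η x (δ • v))) := by
        rw [ENNReal.ofReal_mul (by positivity), ENNReal.ofReal_mul h1θ0.le]
        ring
    _ ≤ _ := by
        gcongr

/-- The averaged second difference at a small scale. -/
theorem piece (r : F → ℝ≥0∞) (hr : Measurable r)
    (hlc : ∀ a b : F, ∀ s : ℝ, 0 < s → s < 1 → r a ^ s * r b ^ (1 - s) ≤ r (s • a + (1 - s) • b))
    (η : F → ℝ) (hη : Sub η) (hηc : Continuous η)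
    (t : ℝ) (ht0 : 0 < t) (ht1 : t < 1) (N : ℕ) (hN : 0 < N) :
    ENNReal.ofReal ((N : ℝ) ^ 2 * (t⁻¹ * (((1 - t) / (1 + t)) ^ Module.finrank ℝ F *
        (1 / (1 + t))))) *
        ∫⁻ v, ∫⁻ x, r x * r v * ENNReal.ofReal (sd η x ((t / N) • v)) ∂μ ∂μ
      ≤ (∫⁻ x, r x ∂μ) * ∫⁻ v, r v * ENNReal.ofReal (η v + η (-v)) ∂μ := by
  have hN' : (0 : ℝ) < N := by exact_mod_cast hN
  set δ : ℝ := t / N with hδ
  have hδ0 : 0 < δ := div_pos ht0 hN'
  set c : ℝ := ((1 - t) / (1 + t)) ^ Module.finrank ℝ F * (1 / (1 + t)) with hc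
  have hc0 : 0 < c := by
    have : 0 < 1 - t := by linarith
    have : 0 < 1 + t := by linarith
    positivity
  set A : ℝ≥0∞ := ∫⁻ v, ∫⁻ x, r x * r v * ENNReal.ofReal (sd η x (δ • v)) ∂μ ∂μ with hA
  have hsdm : ∀ c : ℝ, Measurable fun z : F × F =>
      r z.2 * r z.1 * ENNReal.ofReal (sd η (z.2 - c • z.1) (δ • z.1)) := by
    intro c
    have h1 : Continuous fun z : F × F => sd η (z.2 - c • z.1) (δ • z.1) := by
      unfold sd
      fun_prop
    exact ((hr.comp measurable_snd).mul (hr.comp measurable_fst)).mul h1.measurable.ennreal_ofReal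
  have h1 : ∀ i ∈ Finset.range N, ENNReal.ofReal c * A
      ≤ ∫⁻ v, ∫⁻ x, r x * r v * ENNReal.ofReal (sd η (x - ((i : ℝ) * δ) • v) (δ • v)) ∂μ ∂μ := by
    intro i hi
    rw [Finset.mem_range] at hi
    have hi' : (i : ℝ) * δ ≤ t := by
      have h2 : (i : ℝ) ≤ N := by exact_mod_cast hi.le
      calc (i : ℝ) * δ ≤ N * δ := mul_le_mul_of_nonneg_right h2 hδ0.le
        _ = t := by rw [hδ]; field_simp
    refine rot_le μ r hr hlc η hη hηc ((i : ℝ) * δ) δ t (by positivity) hi' ht1 hδ0.le ?_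
    rcases Nat.eq_zero_or_pos i with h0 | h0
    · right; rw [h0]; simp
    · left
      have : (1 : ℝ) ≤ i := by exact_mod_cast h0
      nlinarith
  have h2 := Finset.sum_le_sum h1
  rw [Finset.sum_const, Finset.card_range] at h2
  have h3 : ∑ i ∈ Finset.range N,
        ∫⁻ v, ∫⁻ x, r x * r v * ENNReal.ofReal (sd η (x - ((i : ℝ) * δ) • v) (δ • v)) ∂μ ∂μ
      ≤ ENNReal.ofReal δ * ((∫⁻ x, r x ∂μ) * ∫⁻ v, r v * ENNReal.ofReal (η v + η (-v)) ∂μ) := by
    rw [← lintegral_finsetSum _ fun i _ => (hsdm _).lintegral_prod_right']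
    calc ∫⁻ v, ∑ i ∈ Finset.range N,
          ∫⁻ x, r x * r v * ENNReal.ofReal (sd η (x - ((i : ℝ) * δ) • v) (δ • v)) ∂μ ∂μ
        ≤ ∫⁻ v, (∫⁻ x, r x ∂μ) * (r v * ENNReal.ofReal (δ * (η v + η (-v)))) ∂μ := by
          refine lintegral_mono fun v => ?_
          simp only
          have hm : ∀ i : ℕ, Measurable fun x =>
              r x * r v * ENNReal.ofReal (sd η (x - ((i : ℝ) * δ) • v) (δ • v)) := fun i =>
            (hsdm ((i : ℝ) * δ)).comp measurable_prodMk_left
          rw [← lintegral_finsetSum _ fun i _ => hm i, ← lintegral_mul_const _ hr]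
          refine lintegral_mono fun x => ?_
          simp only
          rw [← Finset.mul_sum, ← ENNReal.ofReal_sum_of_nonneg fun i _ => hη.sd_nonneg _ _,
            mul_assoc]
          gcongr
          exact hη.tele x v δ hδ0.le N
      _ = ENNReal.ofReal δ * ((∫⁻ x, r x ∂μ) * ∫⁻ v, r v * ENNReal.ofReal (η v + η (-v)) ∂μ) := by
          have hwm : Measurable fun v => r v * ENNReal.ofReal (η v + η (-v)) :=
            hr.mul (by fun_prop : Continuous fun v => η v + η (-v)).measurable.ennreal_ofReal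
          rw [← lintegral_const_mul _ hwm, ← lintegral_const_mul' _ _ ENNReal.ofReal_ne_top]
          refine lintegral_congr fun v => ?_
          rw [ENNReal.ofReal_mul hδ0.le]
          ring
  have h4 := h2.trans h3
  have e5 : (N : ℝ) ^ 2 * (t⁻¹ * c) = δ⁻¹ * ((N : ℝ) * c) := by
    rw [hδ]
    field_simp
  rw [e5, ENNReal.ofReal_mul (by positivity), ENNReal.ofReal_mul hN'.le, ENNReal.ofReal_natCast]
  have h5 : ENNReal.ofReal δ⁻¹ * (N • (ENNReal.ofReal c * A))
      ≤ ENNReal.ofReal δ⁻¹ * (ENNReal.ofReal δ * ((∫⁻ x, r x ∂μ) *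
        ∫⁻ v, r v * ENNReal.ofReal (η v + η (-v)) ∂μ)) := mul_le_mul' le_rfl h4
  rw [← mul_assoc (ENNReal.ofReal δ⁻¹) (ENNReal.ofReal δ), ← ENNReal.ofReal_mul (by positivity),
    inv_mul_cancel₀ hδ0.ne', ENNReal.ofReal_one, one_mul, nsmul_eq_mul] at h5
  refine le_trans (le_of_eq ?_) h5
  ring

end Rotation

end Pool.Agent.T2h52.MS
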