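import Mathlib
import Pool.Agent.TH591.Sq.Marg
import Pool.Agent.T2h52.MS.Rot

set_option autoImplicit false
set_option linter.unusedSectionVars false

/-!
# Marginals of `exp (-g)` for a gauge `g` which need not be even
-/

namespace Pool.Agent.T2h52.MS

open MeasureTheory Set
open scoped ENNReal NNReal

variable {E : Type*} [NormedAddCommGroup E] [InnerProductSpace ℝ E] [FiniteDimensional ℝ E]
  [MeasurableSpace E] [BorelSpace E] {a b : ℕ}

/-- gauges -/
structure Gau (g : E → ℝ) : Prop where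
  sub : Sub g
  nonneg : ∀ x, 0 ≤ g x
  cont : Continuous g

variable {g : E → ℝ}

/-- `exp (-g)` -/
noncomputable def exg (g : E → ℝ) (x : E) : ℝ≥0∞ := ENNReal.ofReal (Real.exp (-(g x)))

theorem exg_meas (hg : Gau g) : Measurable (exg g) := by
  unfold exg
  exact (Real.measurable_exp.comp hg.cont.measurable.neg).ennreal_ofReal

theorem exg_pos (g : E → ℝ) (x : E) : 0 < exg g x := by
  unfold exg; rw [ENNReal.ofReal_pos]; exact Real.exp_pos _

theorem exg_logc (hg : Gau g) (x y : E) (s : ℝ) (hs : 0 < s) (hs1 : s < 1) :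
    exg g x ^ s * exg g y ^ (1 - s) ≤ exg g (s • x + (1 - s) • y) := by
  unfold exg
  rw [ENNReal.ofReal_rpow_of_pos (Real.exp_pos _), ENNReal.ofReal_rpow_of_pos (Real.exp_pos _),
    ← ENNReal.ofReal_mul (by positivity)]
  apply ENNReal.ofReal_le_ofReal
  rw [← Real.exp_mul, ← Real.exp_mul, ← Real.exp_add]
  apply Real.exp_le_exp.2
  have h1 := hg.sub.add (s • x) ((1 - s) • y)
  rw [hg.sub.smul s hs.le, hg.sub.smul (1 - s) (by linarith)] at h1
  linarith

/-- the marginal -/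
noncomputable def rho (g : E → ℝ) (L : ((Fin a → ℝ) × (Fin b → ℝ)) ≃ₗ[ℝ] E)
    (y : Fin a → ℝ) : ℝ≥0∞ := ∫⁻ k : Fin b → ℝ, exg g (L (y, k))

variable (L : ((Fin a → ℝ) × (Fin b → ℝ)) ≃ₗ[ℝ] E)

theorem L_cont : Continuous L := L.toLinearMap.continuous_of_finiteDimensional

theorem exL_meas (hg : Gau g) :
    Measurable fun z : (Fin a → ℝ) × (Fin b → ℝ) => exg g (L z) :=
  (exg_meas hg).comp (L_cont L).measurable

theorem rho_meas (hg : Gau g) : Measurable (rho g L) :=
  (exL_meas L hg).lintegral_prod_right'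

theorem rho_logc (hg : Gau g) (u v : Fin a → ℝ) (s : ℝ) (hs : 0 < s) (hs1 : s < 1) :
    rho g L u ^ s * rho g L v ^ (1 - s) ≤ rho g L (s • u + (1 - s) • v) := by
  unfold rho
  have hm : ∀ y : Fin a → ℝ, Measurable fun k : Fin b → ℝ => exg g (L (y, k)) := fun y =>
    (exL_meas L hg).comp measurable_prodMk_left
  refine Pool.Agent.TH264.MP.pl b s hs hs1 _ _ _ (hm u) (hm v) (hm _) fun k l => ?_
  have h := exg_logc hg (L (u, k)) (L (v, l)) s hs hs1
  rw [← map_smul, ← map_smul, ← map_add] at h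
  simpa using h

theorem lint_rho_mul (hg : Gau g) (κ : ℝ≥0∞)
    (hκ : ∀ f : E → ℝ≥0∞, Measurable f →
      ∫⁻ x, f x = κ * ∫⁻ y : Fin a → ℝ, ∫⁻ k : Fin b → ℝ, f (L (y, k)))
    (G : E → ℝ≥0∞) (r : (Fin a → ℝ) → ℝ≥0∞) (hG : Measurable G)
    (hr : ∀ y k, G (L (y, k)) = r y) :
    ∫⁻ x, exg g x * G x = κ * ∫⁻ y, rho g L y * r y := by
  rw [hκ (fun x => exg g x * G x) ((exg_meas hg).mul hG)]
  congr 1
  refine lintegral_congr fun y => ?_
  simp only [hr]
  rw [lintegral_mul_const]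
  · rfl
  · exact (exL_meas L hg).comp measurable_prodMk_left

theorem piece_L (hg : Gau g) (h : E → ℝ) (hhc : Continuous h) (η : (Fin a → ℝ) → ℝ)
    (hη : Sub η) (hηc : Continuous η)
    (hsd : ∀ (δ : ℝ) y k y' k', sd h (L (y, k)) (δ • L (y', k')) = sd η y (δ • y'))
    (hw : ∀ y k, h (L (y, k)) + h (-(L (y, k))) = η y + η (-y))
    (t : ℝ) (ht0 : 0 < t) (ht : t < 1) (N : ℕ) (hN : 0 < N) :
    ENNReal.ofReal ((N : ℝ) ^ 2 * (t⁻¹ * (((1 - t) / (1 + t)) ^ a * (1 / (1 + t))))) *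
      ∫⁻ v, exg g v * ∫⁻ x, exg g x * ENNReal.ofReal (sd h x ((t / N) • v))
      ≤ (∫⁻ x, exg g x) * ∫⁻ v, exg g v * ENNReal.ofReal (h v + h (-v)) := by
  obtain ⟨κ, hκ0, hκt, hκ⟩ := Pool.Agent.TH591.Sq.exists_kappa L
  set δ : ℝ := t / N with hδ
  have hsdm : ∀ v : E, Measurable fun x => ENNReal.ofReal (sd h x (δ • v)) := by
    intro v
    unfold sd
    have : Continuous fun x => h (x + δ • v) + h (x - δ • v) - 2 * h x := by fun_prop
    exact this.measurable.ennreal_ofReal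
  -- the inner integral
  let G : (Fin a → ℝ) → ℝ≥0∞ := fun y' => ∫⁻ y, rho g L y * ENNReal.ofReal (sd η y (δ • y'))
  have hin : ∀ y' k', ∫⁻ x, exg g x * ENNReal.ofReal (sd h x (δ • L (y', k'))) = κ * G y' := by
    intro y' k'
    exact lint_rho_mul L hg κ hκ _ (fun y => ENNReal.ofReal (sd η y (δ • y')))
      (hsdm _) (fun y k => by rw [hsd])
  have hGE : Measurable fun v => ∫⁻ x, exg g x * ENNReal.ofReal (sd h x (δ • v)) := by
    have h1 : Continuous fun z : E × E => sd h z.2 (δ • z.1) := by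
      unfold sd
      fun_prop
    exact (((exg_meas hg).comp measurable_snd).mul
      h1.measurable.ennreal_ofReal).lintegral_prod_right'
  rw [lint_rho_mul L hg κ hκ _ (fun y' => κ * G y') hGE hin]
  have hrm := rho_meas L hg
  have hpc := piece (volume : Measure (Fin a → ℝ)) (rho g L) hrm (rho_logc L hg) η hη hηc t ht0 ht
    N hN
  rw [Module.finrank_fin_fun, ← hδ] at hpc
  have e1 : ∫⁻ y', rho g L y' * (κ * G y')
      = κ * ∫⁻ v, ∫⁻ x, rho g L x * rho g L v * ENNReal.ofReal (sd η x (δ • v)) := by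
    rw [← lintegral_const_mul' _ _ hκt]
    refine lintegral_congr fun y' => ?_
    have hm : Measurable fun y => rho g L y * ENNReal.ofReal (sd η y (δ • y')) := by
      refine hrm.mul ?_
      unfold sd
      have : Continuous fun y => η (y + δ • y') + η (y - δ • y') - 2 * η y := by fun_prop
      exact this.measurable.ennreal_ofReal
    have e2 : ∫⁻ x, rho g L x * rho g L y' * ENNReal.ofReal (sd η x (δ • y'))
        = rho g L y' * G y' := by
      show _ = rho g L y' * ∫⁻ y, rho g L y * ENNReal.ofReal (sd η y (δ • y'))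
      rw [← lintegral_const_mul _ hm]
      refine lintegral_congr fun x => ?_
      ring
    rw [e2]
    ring
  rw [e1]
  have e2 : ∫⁻ x, exg g x = κ * ∫⁻ y, rho g L y := by
    have h1 := lint_rho_mul L hg κ hκ (fun _ => 1) (fun _ => 1) measurable_const
      (fun _ _ => rfl)
    simpa only [mul_one] using h1
  have e3 : ∫⁻ v, exg g v * ENNReal.ofReal (h v + h (-v))
      = κ * ∫⁻ v, rho g L v * ENNReal.ofReal (η v + η (-v)) := by
    refine lint_rho_mul L hg κ hκ (fun v => ENNReal.ofReal (h v + h (-v)))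
      (fun v => ENNReal.ofReal (η v + η (-v))) ?_ (fun y k => by rw [hw])
    exact (by fun_prop : Continuous fun v => h v + h (-v)).measurable.ennreal_ofReal
  rw [e2, e3]
  calc ENNReal.ofReal ((N : ℝ) ^ 2 * (t⁻¹ * (((1 - t) / (1 + t)) ^ a * (1 / (1 + t))))) *
        (κ * (κ * ∫⁻ v, ∫⁻ x, rho g L x * rho g L v * ENNReal.ofReal (sd η x (δ • v))))
      = κ * (κ * (ENNReal.ofReal ((N : ℝ) ^ 2 * (t⁻¹ * (((1 - t) / (1 + t)) ^ a *
        (1 / (1 + t))))) * ∫⁻ v, ∫⁻ x, rho g L x * rho g L v *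
          ENNReal.ofReal (sd η x (δ • v)))) := by ring
    _ ≤ κ * (κ * ((∫⁻ x, rho g L x) * ∫⁻ v, rho g L v * ENNReal.ofReal (η v + η (-v)))) := by
        gcongr
    _ = _ := by ring

theorem num_t (n a : ℕ) (ha : a ≤ n) : 1 ≤ 11 / 4 * (((1 - 1 / (2 * ((n : ℝ) + 1))) /
    (1 + 1 / (2 * ((n : ℝ) + 1)))) ^ a * (1 / (1 + 1 / (2 * ((n : ℝ) + 1))))) := by
  set t : ℝ := 1 / (2 * ((n : ℝ) + 1)) with ht
  have hn0 : (0 : ℝ) ≤ n := by positivity
  have ht0 : 0 < t := by positivity
  have ht1 : t ≤ 1 / 2 := by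
    rw [ht]
    apply one_div_le_one_div_of_le (by norm_num)
    linarith
  have h1t : 0 < 1 - t := by linarith
  have h1t' : 0 < 1 + t := by linarith
  set q : ℝ := (1 - t) / (1 + t) with hq
  have hq0 : 0 < q := by positivity
  have hq1 : q ≤ 1 := by rw [hq, div_le_one h1t']; linarith
  have h1 : q ^ n ≤ q ^ a := pow_le_pow_of_le_one hq0.le hq1 ha
  have hqi : q⁻¹ ≤ Real.exp (2 / (2 * n + 1)) := by
    have e : q⁻¹ = 2 / (2 * n + 1) + 1 := by
      have f1 : 1 - t = (2 * n + 1) / (2 * n + 2) := by rw [ht]; field_simp; ring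
      have f2 : 1 + t = (2 * n + 3) / (2 * n + 2) := by rw [ht]; field_simp; ring
      rw [hq, f1, f2, inv_div]
      field_simp
      ring
    rw [e]
    exact Real.add_one_le_exp _
  have hti : 1 + t ≤ Real.exp (1 / (2 * n + 2)) := by
    have e : 1 + t = 1 / (2 * n + 2) + 1 := by
      rw [ht]
      field_simp
      ring
    rw [e]
    exact Real.add_one_le_exp _
  have hprod : (q⁻¹) ^ n * (1 + t) ≤ Real.exp 1 := by
    calc (q⁻¹) ^ n * (1 + t) ≤ (Real.exp (2 / (2 * n + 1))) ^ n * Real.exp (1 / (2 * n + 2)) := by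
          gcongr
      _ = Real.exp (n * (2 / (2 * n + 1)) + 1 / (2 * n + 2)) := by
          rw [← Real.exp_nat_mul, ← Real.exp_add]
      _ ≤ Real.exp 1 := by
          apply Real.exp_le_exp.2
          have e1 : (n : ℝ) * (2 / (2 * n + 1)) = 1 - 1 / (2 * n + 1) := by
            field_simp
            ring
          have e2 : 1 / (2 * (n : ℝ) + 2) ≤ 1 / (2 * n + 1) :=
            one_div_le_one_div_of_le (by positivity) (by linarith)
          rw [e1]
          linarith
  have he : Real.exp 1 ≤ 11 / 4 := by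
    have := Real.exp_one_lt_d9
    linarith
  have h2 : 1 ≤ 11 / 4 * (q ^ n * (1 / (1 + t))) := by
    have e : q ^ n * (1 / (1 + t)) = ((q⁻¹) ^ n * (1 + t))⁻¹ := by
      rw [inv_pow]
      field_simp
    rw [e, ← div_eq_mul_inv, one_le_div (by positivity)]
    exact hprod.trans he
  refine h2.trans ?_
  gcongr

/-- The averaged second difference of a sublinear function which is linear on a subspace of
codimension at most `n`, at the scales `1 / (2 N (d+1)!)`. -/
theorem piece_E (hg : Gau g) (h : E → ℝ) (hh : Sub h) (hhc : Continuous h) (W : Submodule ℝ E)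
    (hW : ∀ w ∈ W, h w + h (-w) = 0) (n : ℕ)
    (hn : Module.finrank ℝ E ≤ Module.finrank ℝ W + n) (N : ℕ) (hN : 0 < N) (δ : ℝ)
    (hδ : δ = 1 / (2 * (N : ℝ) * (Module.finrank ℝ E + 1).factorial)) :
    ∫⁻ v, exg g v * ∫⁻ x, exg g x * ENNReal.ofReal (sd h x (δ • v))
      ≤ ENNReal.ofReal (11 / 2 * ((n : ℝ) + 1) * δ ^ 2) *
        ((∫⁻ x, exg g x) * ∫⁻ v, exg g v * ENNReal.ofReal (h v + h (-v))) := by
  set d := Module.finrank ℝ E with hd
  -- reduce to `n ≤ d`
  wlog hnd : n ≤ d generalizing n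
  · have h1 := this d (by omega) le_rfl
    refine h1.trans ?_
    gcongr
    exact le_of_not_ge hnd
  obtain ⟨W', hW'⟩ := Submodule.exists_isCompl W
  set a := Module.finrank ℝ W' with ha
  set b := Module.finrank ℝ W with hb
  have hab : a ≤ n := by
    have h1 := Submodule.finrank_add_eq_of_isCompl hW'
    omega
  let e1 : (Fin a → ℝ) ≃ₗ[ℝ] W' := LinearEquiv.ofFinrankEq _ _ (by rw [Module.finrank_fin_fun])
  let e2 : (Fin b → ℝ) ≃ₗ[ℝ] W := LinearEquiv.ofFinrankEq _ _ (by rw [Module.finrank_fin_fun])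
  let L : ((Fin a → ℝ) × (Fin b → ℝ)) ≃ₗ[ℝ] E :=
    (LinearEquiv.prodCongr e1 e2).trans (Submodule.prodEquivOfIsCompl W' W hW'.symm)
  have hL : ∀ y k, L (y, k) = (e1 y : E) + (e2 k : E) := by
    intro y k
    simp [L]
  -- `h` is additive with respect to `W`
  have hadd : ∀ x : E, ∀ w ∈ W, h (x + w) = h x + h w := by
    intro x w hw
    apply le_antisymm (hh.add x w)
    have h1 := hh.add (x + w) (-w)
    rw [add_neg_cancel_right] at h1
    have h2 := hW w hw
    linarith
  let η : (Fin a → ℝ) → ℝ := fun y => h (e1 y : E)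
  have hηc : Continuous η := by
    have h1 : Continuous fun y : Fin a → ℝ => ((W'.subtype.comp e1.toLinearMap) y : E) :=
      LinearMap.continuous_of_finiteDimensional _
    exact hhc.comp h1
  have hη : Sub η := by
    constructor
    · intro x y
      show h (e1 (x + y) : E) ≤ _
      rw [map_add, Submodule.coe_add]
      exact hh.add _ _
    · intro c hc x
      show h (e1 (c • x) : E) = _
      rw [map_smul, Submodule.coe_smul]
      exact hh.smul c hc _
  have hval : ∀ y k, h (L (y, k)) = η y + h (e2 k : E) := by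
    intro y k
    rw [hL]
    exact hadd _ _ (e2 k).2
  have hsd : ∀ (δ : ℝ) y k y' k', sd h (L (y, k)) (δ • L (y', k')) = sd η y (δ • y') := by
    intro δ y k y' k'
    have f1 : L (y, k) + δ • L (y', k') = L (y + δ • y', k + δ • k') := by
      rw [← map_smul, ← map_add]
      rfl
    have f2 : L (y, k) - δ • L (y', k') = L (y - δ • y', k + -(δ • k')) := by
      rw [← map_smul, ← map_sub, sub_eq_add_neg, sub_eq_add_neg]
      rfl
    unfold sd
    rw [f1, f2, hval, hval, hval, map_add, map_add, Submodule.coe_add, Submodule.coe_add,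
      hadd _ _ (e2 (δ • k')).2, hadd _ _ (e2 (-(δ • k'))).2, map_neg, Submodule.coe_neg]
    have := hW _ (e2 (δ • k')).2
    linarith
  have hw : ∀ y k, h (L (y, k)) + h (-(L (y, k))) = η y + η (-y) := by
    intro y k
    have f1 : -(L (y, k)) = L (-y, -k) := by rw [← map_neg]; rfl
    rw [f1, hval, hval, map_neg e2, Submodule.coe_neg]
    have := hW _ (e2 k).2
    linarith
  -- the scale
  set t : ℝ := 1 / (2 * ((n : ℝ) + 1)) with ht
  have ht0 : 0 < t := by positivity
  have ht1 : t < 1 := by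
    rw [ht, div_lt_one (by positivity)]
    have : (0 : ℝ) ≤ n := by positivity
    linarith
  obtain ⟨D, hD⟩ : (n + 1) ∣ (d + 1).factorial := Nat.dvd_factorial n.succ_pos (by omega)
  have hD0 : 0 < D := by
    rcases Nat.eq_zero_or_pos D with h0 | h0
    · rw [h0, mul_zero] at hD
      exact absurd hD (Nat.factorial_ne_zero _)
    · exact h0
  have hND : 0 < N * D := Nat.mul_pos hN hD0
  have hN' : (0 : ℝ) < N := by exact_mod_cast hN
  have hD' : (0 : ℝ) < D := by exact_mod_cast hD0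
  have hδt : t / ((N * D : ℕ) : ℝ) = δ := by
    rw [hδ, hD, ht]
    push_cast
    field_simp
  have hp := piece_L L hg h hhc η hη hηc hsd hw t ht0 ht1 (N * D) hND
  rw [hδt] at hp
  have hnum := num_t n a hab
  rw [← ht] at hnum
  set c : ℝ := ((1 - t) / (1 + t)) ^ a * (1 / (1 + t)) with hc
  have hδ0 : 0 < δ := by rw [← hδt]; positivity
  have hprod : 1 ≤ (11 / 2 * ((n : ℝ) + 1) * δ ^ 2) * (((N * D : ℕ) : ℝ) ^ 2 * (t⁻¹ * c)) := by
    have e : (11 / 2 * ((n : ℝ) + 1) * δ ^ 2) * (((N * D : ℕ) : ℝ) ^ 2 * (t⁻¹ * c))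
        = 11 / 4 * c := by
      rw [← hδt]
      have e1 : t⁻¹ = 2 * ((n : ℝ) + 1) := by rw [ht, one_div, inv_inv]
      have e2 : (0 : ℝ) < ((N * D : ℕ) : ℝ) := by exact_mod_cast hND
      rw [e1, div_pow, ht]
      field_simp
      ring
    rw [e]
    exact hnum
  set A := ∫⁻ v, exg g v * ∫⁻ x, exg g x * ENNReal.ofReal (sd h x (δ • v)) with hA
  have hpos1 : 0 ≤ 11 / 2 * ((n : ℝ) + 1) * δ ^ 2 := by positivity
  calc A ≤ ENNReal.ofReal ((11 / 2 * ((n : ℝ) + 1) * δ ^ 2) *
        (((N * D : ℕ) : ℝ) ^ 2 * (t⁻¹ * c))) * A := by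
        conv_lhs => rw [← one_mul A]
        gcongr
        rw [← ENNReal.ofReal_one]
        exact ENNReal.ofReal_le_ofReal hprod
    _ = ENNReal.ofReal (11 / 2 * ((n : ℝ) + 1) * δ ^ 2) *
        (ENNReal.ofReal (((N * D : ℕ) : ℝ) ^ 2 * (t⁻¹ * c)) * A) := by
        rw [ENNReal.ofReal_mul hpos1, mul_assoc]
    _ ≤ _ := by gcongr

end Pool.Agent.T2h52.MS
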