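import Mathlib
import Pool.Agent.T2h52.MS.Marg
import Pool.Agent.TH591.Sq.Radial

set_option autoImplicit false
set_option linter.unusedSectionVars false

/-!
# Integrals of homogeneous functions against `exp (-g)`, and a translation
-/

namespace Pool.Agent.T2h52.MS

open MeasureTheory Set Filter
open scoped ENNReal NNReal Topology

variable {E : Type*} [NormedAddCommGroup E] [InnerProductSpace ℝ E] [FiniteDimensional ℝ E]
  [MeasurableSpace E] [BorelSpace E] {g : E → ℝ}

/-- the integral of a homogeneous function over the ball of radius `s` -/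
theorem lint_ball (hg : Gau g) (φ : E → ℝ≥0∞) (hφ : Measurable φ) (k : ℝ)
    (hk : ∀ s : ℝ, 0 < s → ∀ x, φ (s • x) = ENNReal.ofReal (s ^ k) * φ x) (s : ℝ) (hs0 : 0 < s) :
    ∫⁻ x in {x : E | g x ≤ s}, φ x
      = ENNReal.ofReal (s ^ ((Module.finrank ℝ E : ℝ) + k)) * ∫⁻ x in {x : E | g x ≤ 1}, φ x := by
  set d := Module.finrank ℝ E with hd
  have hm1 : MeasurableSet {x : E | g x ≤ 1} :=
    (isClosed_le hg.cont continuous_const).measurableSet
  have hms : MeasurableSet {x : E | g x ≤ s} :=
    (isClosed_le hg.cont continuous_const).measurableSet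
  have h2 := Pool.Agent.TH591.Sq.lint_smul ({x : E | g x ≤ s}.indicator φ) (hφ.indicator hms) s hs0
  have h3 : ∀ x : E, {x : E | g x ≤ s}.indicator φ (s • x)
      = ENNReal.ofReal (s ^ k) * {x : E | g x ≤ 1}.indicator φ x := by
    intro x
    have hps : g (s • x) = s * g x := hg.sub.smul s hs0.le x
    by_cases h : g x ≤ 1
    · rw [indicator_of_mem (show x ∈ {x : E | g x ≤ 1} from h), indicator_of_mem, hk s hs0]
      show g (s • x) ≤ s
      rw [hps]; nlinarith
    · rw [indicator_of_notMem (show x ∉ {x : E | g x ≤ 1} from h), indicator_of_notMem, mul_zero]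
      intro h'
      apply h
      have h'' : g (s • x) ≤ s := h'
      rw [hps] at h''
      exact le_of_mul_le_mul_left (by linarith) hs0
  simp only [h3] at h2
  rw [lintegral_const_mul _ (hφ.indicator hm1), lintegral_indicator hm1,
    lintegral_indicator hms] at h2
  have h4 : ENNReal.ofReal (s ^ d) * ENNReal.ofReal ((s ^ d)⁻¹) = 1 := by
    rw [← ENNReal.ofReal_mul (by positivity), mul_inv_cancel₀ (by positivity), ENNReal.ofReal_one]
  have h5 : ∫⁻ x in {x : E | g x ≤ s}, φ x
      = ENNReal.ofReal (s ^ d) * (ENNReal.ofReal (s ^ k) * ∫⁻ x in {x : E | g x ≤ 1}, φ x) := by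
    rw [h2, ← mul_assoc, h4, one_mul]
  rw [h5, Real.rpow_add hs0, Real.rpow_natCast, ENNReal.ofReal_mul (by positivity)]
  ring

/-- The layer-cake formula for a homogeneous function. -/
theorem layer (hg : Gau g) (φ : E → ℝ≥0∞)
    (hφ : Measurable φ) (k : ℝ) (hk0 : 0 ≤ k)
    (hk : ∀ s : ℝ, 0 < s → ∀ x, φ (s • x) = ENNReal.ofReal (s ^ k) * φ x) :
    ∫⁻ x, exg g x * φ x
      = ENNReal.ofReal (Real.Gamma (((Module.finrank ℝ E : ℝ) + k) + 1))
        * ∫⁻ x in {x : E | g x ≤ 1}, φ x := by
  set d := Module.finrank ℝ E with hd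
  let A : Set (E × ℝ) := {z | g z.1 ≤ z.2}
  have hA : MeasurableSet A :=
    (isClosed_le (hg.cont.comp continuous_fst) continuous_snd).measurableSet
  let F : E × ℝ → ℝ≥0∞ := A.indicator fun z => φ z.1 * ENNReal.ofReal (Real.exp (-z.2))
  have hF : Measurable F := by
    refine Measurable.indicator ?_ hA
    exact (hφ.comp measurable_fst).mul
      (ENNReal.measurable_ofReal.comp (Real.measurable_exp.comp measurable_snd.neg))
  have e1 : ∀ x, exg g x * φ x = ∫⁻ s in Ioi (0 : ℝ), F (x, s) := by
    intro x
    unfold exg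
    rw [mul_comm, ← Pool.Agent.TH591.Sq.lint_exp (g x), ← lintegral_const_mul _ (by fun_prop)]
    have hpx : 0 ≤ g x := hg.nonneg x
    rw [← lintegral_indicator measurableSet_Ici, ← lintegral_indicator measurableSet_Ioi]
    have hne : ∀ᵐ s : ℝ, s ≠ 0 := by
      have := (measure_singleton (μ := (volume : Measure ℝ)) (0 : ℝ))
      exact compl_mem_ae_iff.mpr this
    refine lintegral_congr_ae ?_
    filter_upwards [hne] with s hs
    by_cases h : g x ≤ s
    · have h0 : (0 : ℝ) < s := lt_of_le_of_ne (hpx.trans h) (Ne.symm hs)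
      rw [indicator_of_mem (show s ∈ Ici (g x) from h),
        indicator_of_mem (show s ∈ Ioi (0:ℝ) from h0)]
      show _ = A.indicator _ (x, s)
      rw [indicator_of_mem (show (x, s) ∈ A from h)]
    · rw [indicator_of_notMem (show s ∉ Ici (g x) from h)]
      symm
      by_cases h0 : (0 : ℝ) < s
      · rw [indicator_of_mem (show s ∈ Ioi (0:ℝ) from h0)]
        show A.indicator _ (x, s) = 0
        rw [indicator_of_notMem (show (x, s) ∉ A from h)]
      · rw [indicator_of_notMem (show s ∉ Ioi (0:ℝ) from h0)]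
  simp only [e1]
  have hswap := lintegral_lintegral_swap (μ := (volume : Measure E))
    (ν := (volume : Measure ℝ).restrict (Ioi 0)) (f := fun x s => F (x, s)) hF.aemeasurable
  rw [hswap]
  have e2 : ∀ s ∈ Ioi (0 : ℝ), ∫⁻ x, F (x, s)
      = ENNReal.ofReal (Real.exp (-s)) * ENNReal.ofReal (s ^ ((d : ℝ) + k))
        * ∫⁻ x in {x : E | g x ≤ 1}, φ x := by
    intro s hs
    have hs0 : (0 : ℝ) < s := hs
    have hms : MeasurableSet {x : E | g x ≤ s} :=
      (isClosed_le hg.cont continuous_const).measurableSet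
    have h1 : (fun x => F (x, s))
        = fun x => ENNReal.ofReal (Real.exp (-s)) * {x : E | g x ≤ s}.indicator φ x := by
      funext x
      show A.indicator _ (x, s) = _
      by_cases h : g x ≤ s
      · rw [indicator_of_mem (show (x, s) ∈ A from h),
          indicator_of_mem (show x ∈ {x : E | g x ≤ s} from h), mul_comm]
      · rw [indicator_of_notMem (show (x, s) ∉ A from h),
          indicator_of_notMem (show x ∉ {x : E | g x ≤ s} from h), mul_zero]
    rw [h1, lintegral_const_mul _ (hφ.indicator hms), lintegral_indicator hms,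
      lint_ball hg φ hφ k hk _ hs0, mul_assoc]
  rw [setLIntegral_congr_fun measurableSet_Ioi e2, lintegral_mul_const _ (by fun_prop),
    Pool.Agent.TH591.Sq.lint_gamma _ (by positivity)]

/-- the unit ball is bounded -/
theorem vol_fin (c : ℝ) (hc : 0 < c) (hcg : ∀ x, c * ‖x‖ ≤ g x) :
    volume {x : E | g x ≤ 1} < ⊤ := by
  refine lt_of_le_of_lt (measure_mono ?_) (measure_closedBall_lt_top (x := (0 : E)) (r := 1 / c))
  intro x hx
  rw [mem_closedBall_zero_iff, le_div_iff₀ hc, mul_comm]
  exact (hcg x).trans hx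

theorem exg_eq (hg : Gau g) :
    ∫⁻ x, exg g x = ENNReal.ofReal (Real.Gamma ((Module.finrank ℝ E : ℝ) + 1)) *
      volume {x : E | g x ≤ 1} := by
  have h := layer hg (fun _ => 1) measurable_const 0 le_rfl (fun s _ x => by simp)
  simp only [mul_one, add_zero] at h
  rw [h, setLIntegral_one]

theorem exg_fin (hg : Gau g) (c : ℝ) (hc : 0 < c) (hcg : ∀ x, c * ‖x‖ ≤ g x) :
    ∫⁻ x, exg g x ≠ ⊤ := by
  rw [exg_eq hg]
  exact ENNReal.mul_ne_top ENNReal.ofReal_ne_top (vol_fin c hc hcg).ne

/-- `g` of the negative, in the mean -/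
theorem exg_mom (hg : Gau g) (a : ℝ) (ha : 0 ≤ a)
    (hav : ∫⁻ x in {x : E | g x ≤ 1}, ENNReal.ofReal (g (-x))
      ≤ ENNReal.ofReal a * volume {x : E | g x ≤ 1}) :
    ∫⁻ x, exg g x * ENNReal.ofReal (g x + g (-x))
      ≤ ENNReal.ofReal ((1 + a) * ((Module.finrank ℝ E : ℝ) + 1)) * ∫⁻ x, exg g x := by
  have hm : Continuous fun x => g x + g (-x) := hg.cont.add (hg.cont.comp continuous_neg)
  have h1 := layer hg (fun x => ENNReal.ofReal (g x + g (-x))) hm.measurable.ennreal_ofReal 1
    zero_le_one (fun s hs x => by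
      rw [← smul_neg, hg.sub.smul s hs.le, hg.sub.smul s hs.le, ← mul_add,
        ENNReal.ofReal_mul hs.le, Real.rpow_one])
  rw [h1, exg_eq hg, Real.Gamma_add_one (by positivity), ENNReal.ofReal_mul (by positivity),
    ENNReal.ofReal_mul (by positivity : 0 ≤ 1 + a)]
  have h2 : ∫⁻ x in {x : E | g x ≤ 1}, ENNReal.ofReal (g x + g (-x))
      ≤ ENNReal.ofReal (1 + a) * volume {x : E | g x ≤ 1} := by
    calc ∫⁻ x in {x : E | g x ≤ 1}, ENNReal.ofReal (g x + g (-x))
        ≤ ∫⁻ x in {x : E | g x ≤ 1}, (1 + ENNReal.ofReal (g (-x))) := by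
          refine setLIntegral_mono (measurable_const.add
            (hg.cont.comp continuous_neg).measurable.ennreal_ofReal) fun x hx => ?_
          rw [ENNReal.ofReal_add (hg.nonneg _) (hg.nonneg _)]
          gcongr
          rw [← ENNReal.ofReal_one]
          exact ENNReal.ofReal_le_ofReal hx
      _ = volume {x : E | g x ≤ 1} + ∫⁻ x in {x : E | g x ≤ 1}, ENNReal.ofReal (g (-x)) := by
          rw [lintegral_add_left measurable_const, setLIntegral_one]
      _ ≤ volume {x : E | g x ≤ 1} + ENNReal.ofReal a * volume {x : E | g x ≤ 1} := by gcongr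
      _ = _ := by
          rw [ENNReal.ofReal_add zero_le_one ha, ENNReal.ofReal_one]
          ring
  calc ENNReal.ofReal ((Module.finrank ℝ E : ℝ) + 1) *
        ENNReal.ofReal (Real.Gamma ((Module.finrank ℝ E : ℝ) + 1)) *
        ∫⁻ x in {x : E | g x ≤ 1}, ENNReal.ofReal (g x + g (-x))
      ≤ ENNReal.ofReal ((Module.finrank ℝ E : ℝ) + 1) *
        ENNReal.ofReal (Real.Gamma ((Module.finrank ℝ E : ℝ) + 1)) *
        (ENNReal.ofReal (1 + a) * volume {x : E | g x ≤ 1}) := by gcongr
    _ = _ := by ring

/-- Integration by parts, in the form of a translation. -/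
theorem translate (hg : Gau g) (c : ℝ) (hc : 0 < c) (hcg : ∀ x, c * ‖x‖ ≤ g x) (w : E) :
    ∫⁻ x, exg g x * ENNReal.ofReal ((g (x + w) - g x) ^ 2 * Real.exp (-|g (x + w) - g x|))
      ≤ ∫⁻ x, exg g x * ENNReal.ofReal (sd g x w) := by
  have hZ := exg_fin hg c hc hcg
  have hem := exg_meas hg
  set re : E → ℝ := fun x => Real.exp (-(g x)) with hre
  have hrec : Continuous re := Real.continuous_exp.comp hg.cont.neg
  have hexr : ∀ x, exg g x = ENNReal.ofReal (re x) := fun x => rfl
  have i0 : Integrable re := by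
    refine ⟨hrec.aestronglyMeasurable, ?_⟩
    rw [hasFiniteIntegral_iff_ofReal (Eventually.of_forall fun x => (Real.exp_pos _).le)]
    exact hZ.lt_top
  -- differences are bounded
  have hdiff : ∀ x u : E, |g (x + u) - g x| ≤ g u + g (-u) := by
    intro x u
    have h1 := hg.sub.add x u
    have h2 := hg.sub.add (x + u) (-u)
    rw [add_neg_cancel_right] at h2
    have h3 := hg.nonneg u
    have h4 := hg.nonneg (-u)
    rw [abs_le]
    constructor <;> linarith
  have i2 : ∀ u : E, Integrable (fun x => re x * (g (x + u) - g x)) := by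
    intro u
    refine (i0.mul_const (g u + g (-u))).mono' (hrec.mul
      ((hg.cont.comp (continuous_id.add continuous_const)).sub hg.cont)).aestronglyMeasurable
      (Eventually.of_forall fun x => ?_)
    rw [norm_mul, Real.norm_of_nonneg (Real.exp_pos _).le, Real.norm_eq_abs]
    exact mul_le_mul_of_nonneg_left (hdiff x u) (Real.exp_pos _).le
  have i3 := i2 w
  have i4 : Integrable (fun x => re x * (g (x - w) - g x)) := by
    have := i2 (-w)
    simpa only [← sub_eq_add_neg] using this
  have i5 : Integrable (fun x => re (x + w) * (g x - g (x + w))) := by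
    have := i4.comp_add_right w
    simpa only [add_sub_cancel_right] using this
  have hrew : ∀ x, re (x + w) = re x * Real.exp (-(g (x + w) - g x)) := by
    intro x
    rw [hre]
    simp only
    rw [← Real.exp_add]
    congr 1
    ring
  have e1 : ∫ x, re x * sd g x w
      = ∫ x, re x * ((g (x + w) - g x) * (1 - Real.exp (-(g (x + w) - g x)))) := by
    have h1 : ∫ x, re x * sd g x w
        = (∫ x, re x * (g (x + w) - g x)) + ∫ x, re x * (g (x - w) - g x) := by
      rw [← integral_add i3 i4]
      congr 1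
      funext x
      unfold sd
      ring
    have h2 : ∫ x, re x * (g (x - w) - g x) = ∫ x, re (x + w) * (g x - g (x + w)) := by
      rw [← integral_add_right_eq_self (fun x => re x * (g (x - w) - g x)) w]
      simp only [add_sub_cancel_right]
    rw [h1, h2, ← integral_add i3 i5]
    congr 1
    funext x
    rw [hrew]
    ring
  have i6 : Integrable (fun x => re x * sd g x w) := by
    have := i3.add i4
    refine this.congr (Eventually.of_forall fun x => ?_)
    simp only [Pi.add_apply]
    unfold sd
    ring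
  have i7 : Integrable
      (fun x => re x * ((g (x + w) - g x) * (1 - Real.exp (-(g (x + w) - g x))))) := by
    have := i3.add i5
    refine this.congr (Eventually.of_forall fun x => ?_)
    simp only [Pi.add_apply]
    rw [hrew]
    ring
  have key : ∀ u : ℝ, u ^ 2 * Real.exp (-|u|) ≤ u * (1 - Real.exp (-u)) := by
    intro u
    rcases le_total 0 u with hu | hu
    · rw [abs_of_nonneg hu]
      have h1 := Real.add_one_le_exp u
      have h2 : Real.exp (-u) * Real.exp u = 1 := by rw [← Real.exp_add]; simp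
      have h3 : u * Real.exp (-u) ≤ 1 - Real.exp (-u) := by
        have : (u + 1) * Real.exp (-u) ≤ Real.exp u * Real.exp (-u) :=
          mul_le_mul_of_nonneg_right h1 (Real.exp_pos _).le
        nlinarith
      nlinarith
    · rw [abs_of_nonpos hu, neg_neg]
      have h1 := Real.add_one_le_exp (-u)
      have h2 : Real.exp u ≤ 1 := by rw [Real.exp_le_one_iff]; exact hu
      have h3 := Real.exp_pos u
      nlinarith [mul_nonneg (neg_nonneg.2 hu) (sub_nonneg.2 h1), sq_nonneg u,
        mul_nonneg (sq_nonneg u) (sub_nonneg.2 h2)]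
  calc ∫⁻ x, exg g x * ENNReal.ofReal ((g (x + w) - g x) ^ 2 * Real.exp (-|g (x + w) - g x|))
      ≤ ∫⁻ x, ENNReal.ofReal
          (re x * ((g (x + w) - g x) * (1 - Real.exp (-(g (x + w) - g x))))) := by
        refine lintegral_mono fun x => ?_
        rw [hexr, ← ENNReal.ofReal_mul (Real.exp_pos _).le]
        exact ENNReal.ofReal_le_ofReal (mul_le_mul_of_nonneg_left (key _) (Real.exp_pos _).le)
    _ = ENNReal.ofReal (∫ x, re x * ((g (x + w) - g x) * (1 - Real.exp (-(g (x + w) - g x))))) := by
        rw [ofReal_integral_eq_lintegral_ofReal i7]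
        refine Eventually.of_forall fun x => mul_nonneg (Real.exp_pos _).le ?_
        exact le_trans (by positivity) (key _)
    _ = ENNReal.ofReal (∫ x, re x * sd g x w) := by rw [e1]
    _ = ∫⁻ x, exg g x * ENNReal.ofReal (sd g x w) := by
        rw [ofReal_integral_eq_lintegral_ofReal i6]
        · refine lintegral_congr fun x => ?_
          rw [ENNReal.ofReal_mul (Real.exp_pos _).le, hexr]
        · exact Eventually.of_forall fun x =>
            mul_nonneg (Real.exp_pos _).le (hg.sub.sd_nonneg _ _)

/-- the derivative is homogeneous of degree `0` -/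
theorem df_smul (hg : Gau g) (s : ℝ) (hs : 0 < s) (x : E) :
    fderiv ℝ g (s • x) = fderiv ℝ g x := by
  have h1 : fderiv ℝ (fun y => g (s • y)) x = s • fderiv ℝ g (s • x) := fderiv_comp_smul s
  have h2 : (fun y => g (s • y)) = fun y => s • g y := by
    funext y
    rw [hg.sub.smul s hs.le, smul_eq_mul]
  letI : Invertible s := invertibleOfNonzero hs.ne'
  have h3 : fderiv ℝ (fun y => s • g y) x = s • fderiv ℝ g x :=
    fderiv_const_smul_of_invertible (f := g) s
  rw [h2, h3] at h1
  exact (smul_right_injective _ hs.ne' h1).symm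

end Pool.Agent.T2h52.MS
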