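import Mathlib
import Pool.Agent.T2h52.MS.Lay

set_option autoImplicit false
set_option linter.unusedSectionVars false

/-!
# The mean square of the derivative of a gauge which is an integral of sublinear functions of
small rank
-/

namespace Pool.Agent.T2h52.MS

open MeasureTheory Set Filter
open scoped ENNReal NNReal Topology

variable {E : Type*} [NormedAddCommGroup E] [InnerProductSpace ℝ E] [FiniteDimensional ℝ E]
  [MeasurableSpace E] [BorelSpace E] {g : E → ℝ}

variable {Ω : Type*} [MeasurableSpace Ω] (μ : Measure Ω)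

/-- `g = ∫ h_ω dμ(ω) - l` for jointly measurable sublinear functions `h_ω` and a linear function `l`;
`h_ω` is linear on a subspace of codimension at most `n ω`, and in the mean, weighted with the
widths `h_ω(v) + h_ω(-v)`, the numbers `n ω + 1` are at most `m`. -/
structure Mix (g : E → ℝ) (h : Ω → E → ℝ) (l : E →ₗ[ℝ] ℝ) (n : Ω → ℕ) (m : ℝ) : Prop where
  sub : ∀ ω, Sub (h ω)
  cont : ∀ ω, Continuous (h ω)
  meas : Measurable fun z : Ω × E => h z.1 z.2
  int : ∀ x, Integrable (fun ω => h ω x) μ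
  eq : ∀ x, g x = ∫ ω, h ω x ∂μ - l x
  lin : ∀ ω, ∃ W : Submodule ℝ E, (∀ w ∈ W, h ω w + h ω (-w) = 0) ∧
    Module.finrank ℝ E ≤ Module.finrank ℝ W + n ω
  nmeas : Measurable n
  mean : ∀ v, ∫⁻ ω, ENNReal.ofReal (((n ω : ℝ) + 1) * (h ω v + h ω (-v))) ∂μ
    ≤ ENNReal.ofReal (m * (g v + g (-v)))

variable {μ} [SFinite μ] {h : Ω → E → ℝ} {l : E →ₗ[ℝ] ℝ} {n : Ω → ℕ} {m : ℝ}

theorem Mix.ofsd (H : Mix μ g h l n m) (x v : E) :
    ENNReal.ofReal (sd g x v) = ∫⁻ ω, ENNReal.ofReal (sd (h ω) x v) ∂μ := by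
  have i1 := H.int (x + v)
  have i2 := H.int (x - v)
  have i3 := (H.int x).const_mul 2
  have i4 : Integrable (fun ω => h ω (x + v) + h ω (x - v)) μ := i1.add i2
  have hi : Integrable (fun ω => sd (h ω) x v) μ := i4.sub i3
  have e : ∫ ω, sd (h ω) x v ∂μ = sd g x v := by
    unfold sd
    rw [integral_sub i4 i3, integral_add i1 i2, integral_const_mul, H.eq, H.eq, H.eq, map_add,
      map_sub]
    ring
  rw [← e, ofReal_integral_eq_lintegral_ofReal hi (Eventually.of_forall fun ω =>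
    (H.sub ω).sd_nonneg _ _)]

theorem swap_mul (A : E → ℝ≥0∞) (hA : Measurable A) (B : Ω × E → ℝ≥0∞) (hB : Measurable B) :
    ∫⁻ x, A x * ∫⁻ ω, B (ω, x) ∂μ = ∫⁻ ω, (∫⁻ x, A x * B (ω, x)) ∂μ := by
  have h1 : ∀ x, A x * ∫⁻ ω, B (ω, x) ∂μ = ∫⁻ ω, A x * B (ω, x) ∂μ := fun x =>
    (lintegral_const_mul _ (hB.comp measurable_prodMk_right)).symm
  simp only [h1]
  rw [lintegral_lintegral_swap]
  exact ((hA.comp measurable_fst).mul (hB.comp measurable_swap)).aemeasurable

/-- the averaged second difference of `g` -/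
theorem Mix.avg_sd (H : Mix μ g h l n m) (hg : Gau g) (hm0 : 0 ≤ m) (hZ : ∫⁻ x, exg g x ≠ ⊤)
    (N : ℕ) (hN : 0 < N) (δ : ℝ)
    (hδ : δ = 1 / (2 * (N : ℝ) * (Module.finrank ℝ E + 1).factorial)) :
    ∫⁻ v, exg g v * ∫⁻ x, exg g x * ENNReal.ofReal (sd g x (δ • v))
      ≤ ENNReal.ofReal (11 / 2 * m * δ ^ 2) *
        ((∫⁻ x, exg g x) * ∫⁻ v, exg g v * ENNReal.ofReal (g v + g (-v))) := by
  have hem := exg_meas hg
  have hFm : Measurable fun z : (Ω × E) × E =>
      ENNReal.ofReal (sd (h z.1.1) z.2 (δ • z.1.2)) := by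
    unfold sd
    refine Measurable.ennreal_ofReal ?_
    have m1 : Measurable fun z : (Ω × E) × E => h z.1.1 (z.2 + δ • z.1.2) :=
      H.meas.comp (measurable_fst.fst.prodMk
        (measurable_snd.add ((measurable_fst.snd).const_smul δ)))
    have m2 : Measurable fun z : (Ω × E) × E => h z.1.1 (z.2 - δ • z.1.2) :=
      H.meas.comp (measurable_fst.fst.prodMk
        (measurable_snd.sub ((measurable_fst.snd).const_smul δ)))
    have m3 : Measurable fun z : (Ω × E) × E => h z.1.1 z.2 :=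
      H.meas.comp (measurable_fst.fst.prodMk measurable_snd)
    exact (m1.add m2).sub (m3.const_mul 2)
  have e1 : ∀ v, ∫⁻ x, exg g x * ENNReal.ofReal (sd g x (δ • v))
      = ∫⁻ ω, (∫⁻ x, exg g x * ENNReal.ofReal (sd (h ω) x (δ • v))) ∂μ := by
    intro v
    simp only [H.ofsd]
    refine swap_mul _ hem (fun z => ENNReal.ofReal (sd (h z.1) z.2 (δ • v))) ?_
    exact hFm.comp ((measurable_fst.prodMk measurable_const).prodMk measurable_snd)
  have hB : Measurable fun z : Ω × E =>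
      ∫⁻ x, exg g x * ENNReal.ofReal (sd (h z.1) x (δ • z.2)) := by
    exact ((hem.comp measurable_snd).mul hFm).lintegral_prod_right'
  simp only [e1]
  rw [swap_mul _ hem _ hB]
  have hδ2 : 0 ≤ 11 / 2 * δ ^ 2 := by positivity
  have hwm : Measurable fun z : Ω × E =>
      ENNReal.ofReal (((n z.1 : ℝ) + 1) * (h z.1 z.2 + h z.1 (-z.2))) := by
    refine Measurable.ennreal_ofReal (Measurable.mul ?_ ?_)
    · exact (measurable_from_top.comp (H.nmeas.comp measurable_fst) :
        Measurable fun z : Ω × E => (n z.1 : ℝ)).add_const 1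
    · exact H.meas.add (H.meas.comp (measurable_fst.prodMk measurable_snd.neg))
  calc ∫⁻ ω, (∫⁻ v, exg g v * ∫⁻ x, exg g x * ENNReal.ofReal (sd (h ω) x (δ • v))) ∂μ
      ≤ ∫⁻ ω, ((ENNReal.ofReal (11 / 2 * δ ^ 2) * (∫⁻ x, exg g x)) *
          ∫⁻ v, exg g v * ENNReal.ofReal (((n ω : ℝ) + 1) * (h ω v + h ω (-v)))) ∂μ := by
        refine lintegral_mono fun ω => ?_
        obtain ⟨W, hW, hn⟩ := H.lin ω
        refine (piece_E hg (h ω) (H.sub ω) (H.cont ω) W hW (n ω) hn N hN δ hδ).trans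
          (le_of_eq ?_)
        have hn0 : (0 : ℝ) ≤ (n ω : ℝ) + 1 := by positivity
        have e2 : ∫⁻ v, exg g v * ENNReal.ofReal (((n ω : ℝ) + 1) * (h ω v + h ω (-v)))
            = ENNReal.ofReal ((n ω : ℝ) + 1) *
              ∫⁻ v, exg g v * ENNReal.ofReal (h ω v + h ω (-v)) := by
          rw [← lintegral_const_mul' _ _ ENNReal.ofReal_ne_top]
          refine lintegral_congr fun v => ?_
          rw [ENNReal.ofReal_mul hn0]
          ring
        rw [e2, show 11 / 2 * ((n ω : ℝ) + 1) * δ ^ 2 = (11 / 2 * δ ^ 2) * ((n ω : ℝ) + 1) by ring,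
          ENNReal.ofReal_mul hδ2]
        ring
    _ = (ENNReal.ofReal (11 / 2 * δ ^ 2) * (∫⁻ x, exg g x)) *
          ∫⁻ v, exg g v *
            (∫⁻ ω, ENNReal.ofReal (((n ω : ℝ) + 1) * (h ω v + h ω (-v))) ∂μ) := by
        rw [lintegral_const_mul' _ _ (ENNReal.mul_ne_top ENNReal.ofReal_ne_top hZ),
          swap_mul (μ := μ) _ hem _ hwm]
    _ ≤ (ENNReal.ofReal (11 / 2 * δ ^ 2) * (∫⁻ x, exg g x)) *
          ∫⁻ v, exg g v * ENNReal.ofReal (m * (g v + g (-v))) := by
        gcongr with v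
        exact H.mean v
    _ = _ := by
        have e3 : ∫⁻ v, exg g v * ENNReal.ofReal (m * (g v + g (-v)))
            = ENNReal.ofReal m * ∫⁻ v, exg g v * ENNReal.ofReal (g v + g (-v)) := by
          rw [← lintegral_const_mul' _ _ ENNReal.ofReal_ne_top]
          refine lintegral_congr fun v => ?_
          rw [ENNReal.ofReal_mul hm0]
          ring
        rw [e3, show 11 / 2 * m * δ ^ 2 = (11 / 2 * δ ^ 2) * m by ring, ENNReal.ofReal_mul hδ2]
        ring

/-- the pointwise limit -/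
theorem point_lim (hg : Gau g) (c : ℕ → ℝ) (hc : Tendsto c atTop atTop) (v x : E) :
    exg g v * (exg g x * ENNReal.ofReal ((fderiv ℝ g x v) ^ 2))
      ≤ liminf (fun N : ℕ => exg g v * (exg g x * ENNReal.ofReal ((c N) ^ 2 *
        ((g (x + (c N)⁻¹ • v) - g x) ^ 2 *
          Real.exp (-|g (x + (c N)⁻¹ • v) - g x|))))) atTop := by
  by_cases hd : DifferentiableAt ℝ g x
  · have h2 := hd.hasFDerivAt.lim v (c := c) (l := atTop) (tendsto_norm_atTop_atTop.comp hc)
    have h5 : Tendsto (fun N : ℕ => g (x + (c N)⁻¹ • v) - g x) atTop (𝓝 0) := by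
      have h6 : Tendsto (fun N : ℕ => (c N)⁻¹) atTop (𝓝 0) := tendsto_inv_atTop_zero.comp hc
      have h7 : Tendsto (fun N : ℕ => x + (c N)⁻¹ • v) atTop (𝓝 (x + (0 : ℝ) • v)) :=
        tendsto_const_nhds.add (h6.smul_const v)
      rw [zero_smul, add_zero] at h7
      have h8 := ((hg.cont.tendsto x).comp h7).sub_const (g x)
      rw [sub_self] at h8
      exact h8
    have h6 : Tendsto (fun N : ℕ => (c N) ^ 2 *
        ((g (x + (c N)⁻¹ • v) - g x) ^ 2 *
          Real.exp (-|g (x + (c N)⁻¹ • v) - g x|))) atTop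
        (𝓝 ((fderiv ℝ g x v) ^ 2)) := by
      have h7 := (h2.pow 2).mul ((Real.continuous_exp.tendsto _).comp (h5.abs.neg))
      rw [abs_zero, neg_zero, Real.exp_zero, mul_one] at h7
      refine h7.congr fun N => ?_
      simp only [Function.comp, smul_eq_mul]
      ring
    have h7 := ENNReal.Tendsto.const_mul (a := exg g v) (ENNReal.Tendsto.const_mul
      (a := exg g x) (ENNReal.tendsto_ofReal h6) (Or.inr ENNReal.ofReal_ne_top))
      (Or.inr ENNReal.ofReal_ne_top)
    rw [h7.liminf_eq]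
  · rw [fderiv_zero_of_not_differentiableAt hd]
    simp

/-- Fatou's lemma. -/
theorem Mix.fatou (H : Mix μ g h l n m) (hg : Gau g) (hm0 : 0 ≤ m) (c : ℝ) (hc : 0 < c)
    (hcg : ∀ x, c * ‖x‖ ≤ g x) :
    ∫⁻ z : E × E, exg g z.1 * (exg g z.2 * ENNReal.ofReal ((fderiv ℝ g z.2 z.1) ^ 2))
        ∂((volume : Measure E).prod volume)
      ≤ ENNReal.ofReal (11 / 2 * m) *
        ((∫⁻ x, exg g x) * ∫⁻ v, exg g v * ENNReal.ofReal (g v + g (-v))) := by
  have hem := exg_meas hg
  have hZ := exg_fin hg c hc hcg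
  set D : ℝ := ((Module.finrank ℝ E + 1).factorial : ℝ) with hD
  have hD0 : 0 < D := by rw [hD]; exact_mod_cast Nat.factorial_pos _
  set C : ℕ → ℝ := fun N => 2 * ((N + 1 : ℕ) : ℝ) * D with hC
  have hC0 : ∀ N, 0 < C N := fun N => by
    have : (0 : ℝ) < ((N + 1 : ℕ) : ℝ) := by exact_mod_cast N.succ_pos
    simp only [hC]; positivity
  have hCt : Tendsto C atTop atTop := by
    have h1 : Tendsto (fun N : ℕ => ((N + 1 : ℕ) : ℝ)) atTop atTop :=
      tendsto_natCast_atTop_atTop.comp (tendsto_add_atTop_nat 1)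
    exact (h1.const_mul_atTop (by norm_num : (0 : ℝ) < 2)).atTop_mul_const hD0
  set f : ℕ → E × E → ℝ≥0∞ := fun N z => exg g z.1 * (exg g z.2 * ENNReal.ofReal
    ((C N) ^ 2 * ((g (z.2 + (C N)⁻¹ • z.1) - g z.2) ^ 2 *
          Real.exp (-|g (z.2 + (C N)⁻¹ • z.1) - g z.2|)))) with hf
  have hfm : ∀ N, Measurable (f N) := by
    intro N
    have h0 : Continuous fun z : E × E => g (z.2 + (C N)⁻¹ • z.1) :=
      hg.cont.comp (continuous_snd.add (continuous_fst.const_smul _))
    have h0' : Continuous fun z : E × E => g z.2 := hg.cont.comp continuous_snd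
    have h1 : Continuous fun z : E × E => ((C N) ^ 2 *
        ((g (z.2 + (C N)⁻¹ • z.1) - g z.2) ^ 2 *
          Real.exp (-|g (z.2 + (C N)⁻¹ • z.1) - g z.2|))) :=
      continuous_const.mul (((h0.sub h0').pow 2).mul
        (Real.continuous_exp.comp ((h0.sub h0').abs.neg)))
    exact (hem.comp measurable_fst).mul ((hem.comp measurable_snd).mul
      h1.measurable.ennreal_ofReal)
  have hb : ∀ N, ∫⁻ z, f N z ∂((volume : Measure E).prod volume)
      ≤ ENNReal.ofReal (11 / 2 * m) *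
        ((∫⁻ x, exg g x) * ∫⁻ v, exg g v * ENNReal.ofReal (g v + g (-v))) := by
    intro N
    rw [lintegral_prod _ (hfm N).aemeasurable]
    have hCN := hC0 N
    calc ∫⁻ v, ∫⁻ x, f N (v, x)
        ≤ ∫⁻ v, ENNReal.ofReal ((C N) ^ 2) *
            (exg g v * ∫⁻ x, exg g x * ENNReal.ofReal (sd g x ((C N)⁻¹ • v))) := by
          refine lintegral_mono fun v => ?_
          have e : ∀ x, f N (v, x) = (ENNReal.ofReal ((C N) ^ 2) * exg g v) *
              (exg g x * ENNReal.ofReal ((g (x + (C N)⁻¹ • v) - g x) ^ 2 *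
                Real.exp (-|g (x + (C N)⁻¹ • v) - g x|))) := by
            intro x
            show exg g v * (exg g x * ENNReal.ofReal (_ * _)) = _
            rw [ENNReal.ofReal_mul (by positivity)]
            ring
          simp only [e]
          have hne : ENNReal.ofReal ((C N) ^ 2) * exg g v ≠ ⊤ :=
            ENNReal.mul_ne_top ENNReal.ofReal_ne_top ENNReal.ofReal_ne_top
          rw [lintegral_const_mul' _ _ hne, mul_assoc]
          exact mul_le_mul' le_rfl (mul_le_mul' le_rfl (translate hg c hc hcg _))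
      _ = ENNReal.ofReal ((C N) ^ 2) * ∫⁻ v,
            (exg g v * ∫⁻ x, exg g x * ENNReal.ofReal (sd g x ((C N)⁻¹ • v))) :=
          lintegral_const_mul' _ _ ENNReal.ofReal_ne_top
      _ ≤ ENNReal.ofReal ((C N) ^ 2) *
            (ENNReal.ofReal (11 / 2 * m * ((C N)⁻¹) ^ 2) *
        ((∫⁻ x, exg g x) * ∫⁻ v, exg g v * ENNReal.ofReal (g v + g (-v)))) := by
          gcongr
          exact H.avg_sd hg hm0 hZ (N + 1) N.succ_pos ((C N)⁻¹) (by rw [hC, one_div])
      _ = _ := by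
          rw [← mul_assoc, ← ENNReal.ofReal_mul (by positivity)]
          congr 2
          field_simp
  calc ∫⁻ z : E × E, exg g z.1 * (exg g z.2 * ENNReal.ofReal ((fderiv ℝ g z.2 z.1) ^ 2))
        ∂((volume : Measure E).prod volume)
      ≤ ∫⁻ z : E × E, liminf (fun N => f N z) atTop ∂((volume : Measure E).prod volume) :=
        lintegral_mono fun z => point_lim hg C hCt z.1 z.2
    _ ≤ liminf (fun N => ∫⁻ z, f N z ∂((volume : Measure E).prod volume)) atTop :=
        lintegral_liminf_le hfm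
    _ ≤ liminf (fun _ : ℕ => ENNReal.ofReal (11 / 2 * m) *
        ((∫⁻ x, exg g x) * ∫⁻ v, exg g v * ENNReal.ofReal (g v + g (-v)))) atTop :=
        liminf_le_liminf (Eventually.of_forall hb)
    _ = _ := by rw [liminf_const]

/-- The mean square of the derivative over the unit ball. -/
theorem Mix.mean_sq (H : Mix μ g h l n m) (hg : Gau g) (hm0 : 0 ≤ m) (c : ℝ) (hc : 0 < c)
    (hcg : ∀ x, c * ‖x‖ ≤ g x) (a : ℝ) (ha : 0 ≤ a)
    (hav : ∫⁻ x in {x : E | g x ≤ 1}, ENNReal.ofReal (g (-x))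
      ≤ ENNReal.ofReal a * volume {x : E | g x ≤ 1}) :
    ∫⁻ x in {x : E | g x ≤ 1}, ∫⁻ v in {x : E | g x ≤ 1},
        ENNReal.ofReal ((fderiv ℝ g x v) ^ 2)
      ≤ ENNReal.ofReal (11 * m * (1 + a) / (2 * ((Module.finrank ℝ E : ℝ) + 2))) *
        (volume {x : E | g x ≤ 1}) ^ 2 := by
  set d := Module.finrank ℝ E with hd
  set P : Set E := {x : E | g x ≤ 1} with hP
  set V := volume P with hV
  have hPm : MeasurableSet P := (isClosed_le hg.cont continuous_const).measurableSet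
  set D : E × E → ℝ≥0∞ := fun z => ENNReal.ofReal ((fderiv ℝ g z.1 z.2) ^ 2) with hD
  have hDm : Measurable D := ((Pool.Agent.TH591.Sq.df_meas g).pow_const 2).ennreal_ofReal
  have hem := exg_meas hg
  set Φ : E → ℝ≥0∞ := fun x => ∫⁻ v in P, D (x, v) with hΦ
  have hΦm : Measurable Φ := hDm.lintegral_prod_right'
  have hΦ0 : ∀ s : ℝ, 0 < s → ∀ x, Φ (s • x) = Φ x := by
    intro s hs x
    simp only [hΦ, hD, df_smul hg s hs x]
  set I := ∫⁻ x in P, Φ x with hI
  have hZ := exg_eq hg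
  rw [← hP, ← hV, ← hd] at hZ
  -- the integral over the direction
  have hv : ∀ x, ∫⁻ v, exg g v * D (x, v)
      = ENNReal.ofReal (Real.Gamma (((d : ℝ) + 2) + 1)) * Φ x := by
    intro x
    exact layer hg (fun v => D (x, v)) (hDm.comp measurable_prodMk_left) 2
      (by norm_num) (fun s hs v => by
      show ENNReal.ofReal ((fderiv ℝ g x (s • v)) ^ 2) = _ * ENNReal.ofReal ((fderiv ℝ g x v) ^ 2)
      rw [map_smul, smul_eq_mul, mul_pow, ENNReal.ofReal_mul (by positivity)]
      norm_num)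
  -- the integral over the point
  have hx : ∫⁻ x, exg g x * Φ x = ENNReal.ofReal (Real.Gamma ((d : ℝ) + 1)) * I := by
    have h1 := layer hg Φ hΦm 0 le_rfl (fun s hs x => by
        rw [hΦ0 s hs x, Real.rpow_zero, ENNReal.ofReal_one, one_mul])
    rw [add_zero] at h1
    exact h1
  have hF := H.fatou hg hm0 c hc hcg
  have hmom := exg_mom hg a ha hav
  rw [← hd] at hmom
  have e1 : ∫⁻ z : E × E, exg g z.1 *
        (exg g z.2 * ENNReal.ofReal ((fderiv ℝ g z.2 z.1) ^ 2))
        ∂((volume : Measure E).prod volume)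
      = ENNReal.ofReal (Real.Gamma (((d : ℝ) + 2) + 1)) *
        (ENNReal.ofReal (Real.Gamma ((d : ℝ) + 1)) * I) := by
    have hm : Measurable fun z : E × E =>
        exg g z.1 * (exg g z.2 * ENNReal.ofReal ((fderiv ℝ g z.2 z.1) ^ 2)) := by
      refine (hem.comp measurable_fst).mul ((hem.comp measurable_snd).mul ?_)
      exact hDm.comp measurable_swap
    rw [lintegral_prod_symm' _ hm]
    calc ∫⁻ x, ∫⁻ v, exg g v * (exg g x * ENNReal.ofReal ((fderiv ℝ g x v) ^ 2))
        = ∫⁻ x, ENNReal.ofReal (Real.Gamma (((d : ℝ) + 2) + 1)) * (exg g x * Φ x) := by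
          refine lintegral_congr fun x => ?_
          have e2 : ∀ v, exg g v * (exg g x * ENNReal.ofReal ((fderiv ℝ g x v) ^ 2))
              = exg g x * (exg g v * D (x, v)) := by
            intro v
            show _ = _ * (_ * ENNReal.ofReal ((fderiv ℝ g x v) ^ 2))
            ring
          simp only [e2]
          have hne : exg g x ≠ ⊤ := ENNReal.ofReal_ne_top
          rw [lintegral_const_mul' _ _ hne, hv]
          ring
      _ = _ := by
          rw [lintegral_const_mul' _ _ ENNReal.ofReal_ne_top, hx]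
  rw [e1] at hF
  set G0 : ℝ := Real.Gamma ((d : ℝ) + 1) with hG0
  have hG0p : 0 < G0 := Real.Gamma_pos_of_pos (by positivity)
  have hG2 : Real.Gamma (((d : ℝ) + 2) + 1) = ((d : ℝ) + 2) * (((d : ℝ) + 1) * G0) := by
    rw [Real.Gamma_add_one (by positivity), show (d : ℝ) + 2 = ((d : ℝ) + 1) + 1 by ring,
      Real.Gamma_add_one (by positivity)]
  rw [hG2] at hF
  have hm1 : 0 ≤ 11 / 2 * m := by positivity
  have h3 : ENNReal.ofReal (((d : ℝ) + 2) * (((d : ℝ) + 1) * G0)) * (ENNReal.ofReal G0 * I)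
      ≤ ENNReal.ofReal (((d : ℝ) + 2) * (((d : ℝ) + 1) * G0)) * (ENNReal.ofReal G0 *
        (ENNReal.ofReal (11 * m * (1 + a) / (2 * ((d : ℝ) + 2))) * V ^ 2)) := by
    refine hF.trans ((mul_le_mul' le_rfl (mul_le_mul' le_rfl hmom)).trans (le_of_eq ?_))
    rw [hZ]
    have e5 : ENNReal.ofReal (11 / 2 * m) * (ENNReal.ofReal G0 * V *
        (ENNReal.ofReal ((1 + a) * ((d : ℝ) + 1)) * (ENNReal.ofReal G0 * V)))
        = (ENNReal.ofReal (11 / 2 * m) * ENNReal.ofReal G0 *
          ENNReal.ofReal ((1 + a) * ((d : ℝ) + 1)) * ENNReal.ofReal G0) * V ^ 2 := by ring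
    have e6 : ENNReal.ofReal (((d : ℝ) + 2) * (((d : ℝ) + 1) * G0)) * (ENNReal.ofReal G0 *
        (ENNReal.ofReal (11 * m * (1 + a) / (2 * ((d : ℝ) + 2))) * V ^ 2))
        = (ENNReal.ofReal (((d : ℝ) + 2) * (((d : ℝ) + 1) * G0)) * ENNReal.ofReal G0 *
        ENNReal.ofReal (11 * m * (1 + a) / (2 * ((d : ℝ) + 2)))) * V ^ 2 := by ring
    rw [e5, e6]
    congr 1
    rw [← ENNReal.ofReal_mul hm1, ← ENNReal.ofReal_mul (by positivity),
      ← ENNReal.ofReal_mul (by positivity), ← ENNReal.ofReal_mul (by positivity),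
      ← ENNReal.ofReal_mul (by positivity)]
    congr 1
    field_simp
  have hA0 : ENNReal.ofReal (((d : ℝ) + 2) * (((d : ℝ) + 1) * G0)) ≠ 0 := by
    rw [Ne, ENNReal.ofReal_eq_zero, not_le]; positivity
  have hA1 : ENNReal.ofReal G0 ≠ 0 := by
    rw [Ne, ENNReal.ofReal_eq_zero, not_le]; exact hG0p
  have h4 := (ENNReal.mul_le_mul_iff_right hA0 ENNReal.ofReal_ne_top).1 h3
  exact (ENNReal.mul_le_mul_iff_right hA1 ENNReal.ofReal_ne_top).1 h4

end Pool.Agent.T2h52.MS
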