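import Mathlib
import Pool.Agent.T2h52.MS.Main
import Pool.Agent.TH591.Sq.Flat
import Pool.Agent.TH591.Lie.Sep
import Pool.Agent.Results.MP_eba1ef_gt.AsymmetricThinSlabs

set_option autoImplicit false
set_option linter.unusedSectionVars false

/-!
# Support functions, polar bodies and the flatness of the polar body of a Minkowski integral
-/

namespace Pool.Agent.T2h52.MS

open MeasureTheory Set Filter
open scoped ENNReal NNReal Topology InnerProductSpace

section
variable {E : Type*} [NormedAddCommGroup E] [InnerProductSpace ℝ E]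

/-- the support function -/
noncomputable def supp (C : Set E) (x : E) : ℝ := sSup ((fun y => ⟪x, y⟫_ℝ) '' C)

/-- the width -/
noncomputable def width (C : Set E) (x : E) : ℝ := supp C x + supp C (-x)

variable {C : Set E}

theorem supp_att (hC : IsCompact C) (hne : C.Nonempty) (x : E) :
    ∃ y ∈ C, supp C x = ⟪x, y⟫_ℝ ∧ ∀ z ∈ C, ⟪x, z⟫_ℝ ≤ ⟪x, y⟫_ℝ := by
  obtain ⟨y, hy, hmax⟩ := hC.exists_isMaxOn hne
    (by fun_prop : Continuous fun y : E => ⟪x, y⟫_ℝ).continuousOn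
  have hmax' : ∀ z ∈ C, ⟪x, z⟫_ℝ ≤ ⟪x, y⟫_ℝ := fun z hz => hmax hz
  refine ⟨y, hy, ?_, hmax'⟩
  apply le_antisymm
  · apply csSup_le (hne.image _)
    rintro _ ⟨z, hz, rfl⟩
    exact hmax' z hz
  · apply le_csSup
    · refine ⟨⟪x, y⟫_ℝ, ?_⟩
      rintro _ ⟨z, hz, rfl⟩
      exact hmax' z hz
    · exact ⟨y, hy, rfl⟩

theorem le_supp (hC : IsCompact C) (x : E) {y : E} (hy : y ∈ C) : ⟪x, y⟫_ℝ ≤ supp C x := by
  obtain ⟨z, -, h1, h2⟩ := supp_att hC ⟨y, hy⟩ x
  rw [h1]
  exact h2 y hy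

theorem supp_sub (hC : IsCompact C) (hne : C.Nonempty) : Sub (supp C) := by
  constructor
  · intro x y
    obtain ⟨z, hz, h1, -⟩ := supp_att hC hne (x + y)
    rw [h1, inner_add_left]
    exact add_le_add (le_supp hC x hz) (le_supp hC y hz)
  · intro c hc x
    obtain ⟨z, hz, h1, -⟩ := supp_att hC hne (c • x)
    obtain ⟨w, hw, h2, -⟩ := supp_att hC hne x
    apply le_antisymm
    · rw [h1, real_inner_smul_left]
      exact mul_le_mul_of_nonneg_left (le_supp hC x hz) hc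
    · rw [h2, ← real_inner_smul_left]
      exact le_supp hC (c • x) hw

theorem supp_lip (hC : IsCompact C) (hne : C.Nonempty) : Continuous (supp C) := by
  obtain ⟨R, hR⟩ := hC.isBounded.subset_closedBall (0 : E)
  have hR' : ∀ y ∈ C, ‖y‖ ≤ |R| := fun y hy => by
    have := hR hy
    rw [mem_closedBall_zero_iff] at this
    exact this.trans (le_abs_self _)
  have h : ∀ x y, supp C x - supp C y ≤ |R| * ‖x - y‖ := by
    intro x y
    obtain ⟨z, hz, h1, -⟩ := supp_att hC hne x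
    have h2 := le_supp hC y hz
    have h3 : ⟪x, z⟫_ℝ - ⟪y, z⟫_ℝ = ⟪x - y, z⟫_ℝ := by rw [inner_sub_left]
    have h4 := real_inner_le_norm (x - y) z
    have h5 : ‖x - y‖ * ‖z‖ ≤ ‖x - y‖ * |R| :=
      mul_le_mul_of_nonneg_left (hR' z hz) (norm_nonneg _)
    rw [h1]
    linarith
  have hL : LipschitzWith ⟨|R|, abs_nonneg R⟩ (supp C) := by
    refine LipschitzWith.of_dist_le_mul fun x y => ?_
    rw [Real.dist_eq, dist_eq_norm, abs_le]
    have h1 := h x y
    have h2 := h y x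
    rw [norm_sub_rev] at h2
    constructor
    · show -(|R| * ‖x - y‖) ≤ _
      linarith
    · exact h1
  exact hL.continuous

/-- a set in a flat of dimension `n` -/
theorem supp_lin [FiniteDimensional ℝ E] (hC : IsCompact C) (hne : C.Nonempty) (n : ℕ)
    (hn : Module.finrank ℝ (vectorSpan ℝ C) ≤ n) :
    ∃ W : Submodule ℝ E, (∀ w ∈ W, supp C w + supp C (-w) = 0) ∧
      Module.finrank ℝ E ≤ Module.finrank ℝ W + n := by
  refine ⟨(vectorSpan ℝ C)ᗮ, ?_, ?_⟩
  · intro w hw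
    obtain ⟨y, hy, h1, -⟩ := supp_att hC hne w
    obtain ⟨z, hz, h2, -⟩ := supp_att hC hne (-w)
    rw [h1, h2, inner_neg_left, ← sub_eq_add_neg, ← inner_sub_right]
    have h3 := (Submodule.mem_orthogonal' _ _).1 hw (y - z) (by
      rw [← vsub_eq_sub]
      exact vsub_mem_vectorSpan ℝ hy hz)
    exact h3
  · have := Submodule.finrank_add_finrank_orthogonal (vectorSpan ℝ C)
    omega
end

variable {d : ℕ}



/-- the gauge of the polar body -/
noncomputable def gp (K : Set (EuclideanSpace ℝ (Fin d))) (o x : EuclideanSpace ℝ (Fin d)) : ℝ :=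
  supp K x - ⟪o, x⟫_ℝ

variable {K : Set (EuclideanSpace ℝ (Fin d))} {o : EuclideanSpace ℝ (Fin d)}


theorem le_gp (hKc : IsCompact K) (x : EuclideanSpace ℝ (Fin d)) {y : EuclideanSpace ℝ (Fin d)}
    (hy : y ∈ K) : ⟪x, y - o⟫_ℝ ≤ gp K o x := by
  unfold gp
  rw [inner_sub_right, real_inner_comm x o]
  linarith [le_supp hKc x hy]

theorem gp_att (hKc : IsCompact K) (hne : K.Nonempty) (x : EuclideanSpace ℝ (Fin d)) :
    ∃ y ∈ K, gp K o x = ⟪x, y - o⟫_ℝ := by
  obtain ⟨y, hy, h1, -⟩ := supp_att hKc hne x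
  refine ⟨y, hy, ?_⟩
  unfold gp
  rw [inner_sub_right, real_inner_comm x o, h1]

theorem gp_lower (hKc : IsCompact K) (ho : o ∈ interior K) :
    ∃ c : ℝ, 0 < c ∧ ∀ x, c * ‖x‖ ≤ gp K o x := by
  obtain ⟨r, hr, hrK⟩ := TH591.Lie.exists_closedBall_subset K o ho
  refine ⟨r, hr, fun x => ?_⟩
  rcases eq_or_ne x 0 with rfl | hx
  · have h1 := le_gp (o := o) hKc 0 (interior_subset ho)
    rw [inner_zero_left] at h1
    simpa using h1
  have hn : 0 < ‖x‖ := norm_pos_iff.mpr hx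
  have hy : o + (r / ‖x‖) • x ∈ K := by
    apply hrK
    rw [Metric.mem_closedBall, dist_eq_norm, add_sub_cancel_left, norm_smul, Real.norm_eq_abs,
      abs_of_pos (by positivity), div_mul_cancel₀ _ hn.ne']
  have h1 := le_gp (o := o) hKc x hy
  rw [add_sub_cancel_left, real_inner_smul_right, real_inner_self_eq_norm_sq] at h1
  have e : r / ‖x‖ * ‖x‖ ^ 2 = r * ‖x‖ := by field_simp
  linarith

theorem gp_gau (hKc : IsCompact K) (ho : o ∈ interior K) : Gau (gp K o) := by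
  have hne : K.Nonempty := ⟨o, interior_subset ho⟩
  obtain ⟨c, hc, hcg⟩ := gp_lower hKc ho
  refine ⟨⟨fun x y => ?_, fun s hs x => ?_⟩, fun x => ?_, ?_⟩
  · unfold gp
    rw [inner_add_right]
    linarith [(supp_sub hKc hne).add x y]
  · unfold gp
    rw [inner_smul_right, (supp_sub hKc hne).smul s hs x]
    ring
  · exact (by positivity : (0 : ℝ) ≤ c * ‖x‖).trans (hcg x)
  · unfold gp
    exact (supp_lip hKc hne).sub (by fun_prop)

theorem polar_eq (hKc : IsCompact K) (hne : K.Nonempty) :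
    TH591.Lie.polarAt K o = {v | gp K o v ≤ 1} := by
  ext v
  constructor
  · intro hv
    obtain ⟨y, hy, h1⟩ := gp_att (o := o) hKc hne v
    show gp K o v ≤ 1
    rw [h1]
    exact hv y hy
  · intro hv y hy
    exact (le_gp hKc v hy).trans hv

theorem polar_nhds (hKc : IsCompact K) (ho : o ∈ interior K) :
    {v | gp K o v ≤ 1} ∈ 𝓝 (0 : EuclideanSpace ℝ (Fin d)) := by
  have hg := gp_gau hKc ho
  have h0 : gp K o 0 = 0 := hg.sub.zero
  have h1 : {v | gp K o v < 1} ∈ 𝓝 (0 : EuclideanSpace ℝ (Fin d)) :=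
    (isOpen_lt hg.cont continuous_const).mem_nhds (by
      show gp K o 0 < 1
      rw [h0]; exact one_pos)
  refine Filter.mem_of_superset h1 fun v hv => ?_
  have hv' : gp K o v < 1 := hv
  exact hv'.le

/-- the gauge of the polar body -/
theorem gauge_eq (hKc : IsCompact K) (ho : o ∈ interior K) :
    gauge {v | gp K o v ≤ 1} = gp K o := by
  have hg := gp_gau hKc ho
  obtain ⟨c, hc, hcg⟩ := gp_lower hKc ho
  funext x
  rcases eq_or_ne x 0 with rfl | hx
  · rw [gauge_zero, hg.sub.zero]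
  have hpos : 0 < gp K o x := (by
    have := norm_pos_iff.mpr hx
    positivity : (0 : ℝ) < c * ‖x‖).trans_le (hcg x)
  apply le_antisymm
  · refine gauge_le_of_mem hpos.le ?_
    rw [mem_smul_set_iff_inv_smul_mem₀ hpos.ne']
    show gp K o _ ≤ 1
    rw [hg.sub.smul _ (by positivity), inv_mul_cancel₀ hpos.ne']
  · refine le_csInf (absorbent_nhds_zero (polar_nhds hKc ho)).gauge_set_nonempty ?_
    · rintro r ⟨hr0, hr⟩
      rw [mem_smul_set_iff_inv_smul_mem₀ hr0.ne'] at hr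
      have hr' : gp K o (r⁻¹ • x) ≤ 1 := hr
      rw [hg.sub.smul _ (by positivity), inv_mul_le_iff₀ hr0, mul_one] at hr'
      exact hr'

/-- set asymmetry gives the mean asymmetry -/
theorem asym_mean (hKc : IsCompact K) (ho : o ∈ interior K) (a : ℝ) (ha : 0 < a)
    (hKa : ∀ x ∈ K, o - a⁻¹ • (x - o) ∈ K) :
    ∫⁻ x in {x | gp K o x ≤ 1}, ENNReal.ofReal (gp K o (-x))
      ≤ ENNReal.ofReal a * volume {x | gp K o x ≤ 1} := by
  have hg := gp_gau hKc ho
  have h1 : ∀ x, gp K o (-x) ≤ a * gp K o x := by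
    intro x
    obtain ⟨y, hy, h2⟩ := gp_att (o := o) hKc ⟨o, interior_subset ho⟩ (-x)
    have h3 := le_gp (o := o) hKc x (hKa y hy)
    rw [sub_sub_cancel_left, inner_neg_right, real_inner_smul_right] at h3
    rw [h2, inner_neg_left]
    have h4 : a * -(a⁻¹ * ⟪x, y - o⟫_ℝ) ≤ a * gp K o x := mul_le_mul_of_nonneg_left h3 ha.le
    have h5 : a * -(a⁻¹ * ⟪x, y - o⟫_ℝ) = -⟪x, y - o⟫_ℝ := by field_simp
    linarith
  calc ∫⁻ x in {x | gp K o x ≤ 1}, ENNReal.ofReal (gp K o (-x))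
      ≤ ∫⁻ _ in {x | gp K o x ≤ 1}, ENNReal.ofReal a := by
        refine setLIntegral_mono' (isClosed_le hg.cont continuous_const).measurableSet
          fun x hx => ENNReal.ofReal_le_ofReal ?_
        have h2 := h1 x
        have h3 : a * gp K o x ≤ a * 1 := mul_le_mul_of_nonneg_left hx ha.le
        linarith
    _ = _ := setLIntegral_const _ _

/-- the covering of the polar body -/
theorem cover_core (hd : 2 ≤ d) (hKc : IsCompact K) (ho : o ∈ interior K)
    {Ω : Type*} [MeasurableSpace Ω] (μ : Measure Ω) [SFinite μ] {h : Ω → EuclideanSpace ℝ (Fin d) → ℝ}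
    {l : EuclideanSpace ℝ (Fin d) →ₗ[ℝ] ℝ} {n : Ω → ℕ} {m : ℝ} (hm : 0 < m)
    (H : Mix μ (gp K o) h l n m) (a : ℝ) (ha : 0 ≤ a)
    (hav : ∫⁻ x in {x | gp K o x ≤ 1}, ENNReal.ofReal (gp K o (-x))
      ≤ ENNReal.ofReal a * volume {x | gp K o x ≤ 1})
    (s : ℝ) (hs : s = √(d / (m * (1 + a))) / 18012) :
    ∃ T : Finset (EuclideanSpace ℝ (Fin d)), TH591.Lie.polarAt K o
        ⊆ ⋃ t ∈ T, (fun x => t + x) '' interior (TH591.Lie.polarAt K o) ∧
      (T.card : ℝ) ≤ 1 + 13 * d * Real.log (2 * d ^ 2 + 2 * d + 1) * 2 ^ d * Real.exp (-s) := by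
  have hne : K.Nonempty := ⟨o, interior_subset ho⟩
  have hg := gp_gau hKc ho
  obtain ⟨c, hc, hcg⟩ := gp_lower hKc ho
  have hPc : IsCompact (TH591.Lie.polarAt K o) := TH591.Lie.polarAt_compact K o ho
  have hPe := polar_eq (o := o) hKc hne
  have hPn := polar_nhds hKc ho
  have hd0 : (0 : ℝ) < d := by
    have : (2 : ℝ) ≤ d := by exact_mod_cast hd
    linarith
  have h1a : 0 < 1 + a := by linarith
  set ρ : ℝ := √(11 * m * (1 + a) / (2 * d)) with hρ
  have hρ0 : 0 < ρ := Real.sqrt_pos.2 (by positivity)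
  have hρ2 : ρ ^ 2 = 11 * m * (1 + a) / (2 * d) := Real.sq_sqrt (by positivity)
  have hms := H.mean_sq hg hm.le c hc hcg a ha hav
  rw [finrank_euclideanSpace_fin] at hms
  have hms' : ∫⁻ x in {x | gp K o x ≤ 1}, ∫⁻ v in {x | gp K o x ≤ 1},
        ENNReal.ofReal ((fderiv ℝ (gp K o) x v) ^ 2)
      ≤ ENNReal.ofReal (ρ ^ 2) * (volume {x | gp K o x ≤ 1}) ^ 2 := by
    refine hms.trans (mul_le_mul' (ENNReal.ofReal_le_ofReal ?_) le_rfl)
    rw [hρ2]
    gcongr
    linarith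
  rw [hPe] at hPc
  have hPm : MeasurableSet {x | gp K o x ≤ 1} := hPc.isClosed.measurableSet
  obtain ⟨R, hR⟩ := hPc.isBounded.subset_closedBall (0 : EuclideanSpace ℝ (Fin d))
  have hfl := TH591.Sq.flat_int (gp K o) {x | gp K o x ≤ 1} hPc.measure_lt_top.ne R
    (fun x hx => by simpa using hR hx) hPm ρ hρ0 hms'
  have hV : 0 < (volume {x | gp K o x ≤ 1}).toReal :=
    ENNReal.toReal_pos (Measure.measure_pos_of_mem_nhds volume hPn).ne' hPc.measure_lt_top.ne
  have hflat : Results.MP_eba1ef_gt.AsymmetricThinSlabs.flatness {x | gp K o x ≤ 1} ≤ ρ := by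
    unfold Results.MP_eba1ef_gt.AsymmetricThinSlabs.flatness
    rw [gauge_eq hKc ho, div_le_iff₀ (by positivity)]
    exact hfl
  have hPv : Convex ℝ {x | gp K o x ≤ 1} := by
    rw [← hPe]; exact TH591.Lie.polarAt_convex K o
  obtain ⟨T, hT1, hT2, -⟩ := (Results.MP_eba1ef_gt.AsymmetricThinSlabs.result d hd
    {x | gp K o x ≤ 1} hPv hPc (mem_interior_iff_mem_nhds.2 hPn)).2.1 ρ hρ0 hflat
  refine ⟨T, ?_, hT2.trans ?_⟩
  · rw [hPe]; exact hT1
  · have hx : s ≤ 1 / (7680 * ρ) := by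
      rw [le_div_iff₀ (by positivity), hs]
      have e1 : √(d / (m * (1 + a))) * ρ = √(11 / 2) := by
        rw [hρ, ← Real.sqrt_mul (by positivity)]
        congr 1
        field_simp
      have e2 : √(11 / 2 : ℝ) ≤ 18012 / 7680 := by
        rw [Real.sqrt_le_left (by norm_num)]
        norm_num
      calc √(d / (m * (1 + a))) / 18012 * (7680 * ρ)
          = (√(d / (m * (1 + a))) * ρ) * (7680 / 18012) := by ring
        _ ≤ 18012 / 7680 * (7680 / 18012) := by
            rw [e1]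
            gcongr
        _ = 1 := by norm_num
    have hc0 : 0 ≤ 13 * (d : ℝ) * Real.log (2 * d ^ 2 + 2 * d + 1) * 2 ^ d := by
      have : 0 ≤ Real.log (2 * (d : ℝ) ^ 2 + 2 * d + 1) := Real.log_nonneg (by nlinarith)
      positivity
    have h2 : Real.exp (-(1 / (7680 * ρ))) ≤ Real.exp (-s) :=
      Real.exp_le_exp.mpr (by linarith)
    linarith [mul_le_mul_of_nonneg_left h2 hc0]

end Pool.Agent.T2h52.MS
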