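import Mathlib
import Pool.Agent.T2h52.MS.Supp

set_option autoImplicit false
set_option linter.unusedSectionVars false

/-!
# Asymmetry of Minkowski sums, support functions of Minkowski sums
-/

namespace Pool.Agent.T2h52.MS

open MeasureTheory Set Filter
open scoped ENNReal NNReal Topology InnerProductSpace Pointwise

section
variable {E : Type*} [NormedAddCommGroup E] [InnerProductSpace ℝ E] [FiniteDimensional ℝ E]

/-- Minkowski and Radon: a convex set of dimension `n` has a point of asymmetry at most `n`. -/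
theorem radon_point (C : Set E) (hC : Convex ℝ C) (hCc : IsCompact C) (hne : C.Nonempty) (n : ℕ)
    (hn : 1 ≤ n) (hdim : Module.finrank ℝ (vectorSpan ℝ C) ≤ n) :
    ∃ c ∈ C, ∀ x ∈ C, c - (n : ℝ)⁻¹ • (x - c) ∈ C := by
  classical
  obtain ⟨c₀, hc₀⟩ := hne
  have hn0 : (0 : ℝ) < n := by exact_mod_cast hn
  set W := vectorSpan ℝ C with hW
  -- the sets
  let f : C → W → E := fun x w => (1 + (n : ℝ)⁻¹) • (c₀ + (w : E)) - (n : ℝ)⁻¹ • (x : E)
  let F : C → Set W := fun x => f x ⁻¹' C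
  have hf : ∀ x, Continuous (f x) := fun x => by
    show Continuous fun w : W => (1 + (n : ℝ)⁻¹) • (c₀ + (w : E)) - (n : ℝ)⁻¹ • (x : E)
    fun_prop
  have hconv : ∀ x, Convex ℝ (F x) := by
    intro x w hw w' hw' s t hs ht hst
    have h1 := hC hw hw' hs ht hst
    show f x (s • w + t • w') ∈ C
    have e : f x (s • w + t • w') = s • f x w + t • f x w' := by
      simp only [f, Submodule.coe_add, Submodule.coe_smul]
      have : c₀ = s • c₀ + t • c₀ := by rw [← add_smul, hst, one_smul]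
      have h2 : (x : E) = s • (x : E) + t • (x : E) := by rw [← add_smul, hst, one_smul]
      conv_lhs => rw [this, h2]
      module
    rw [e]
    exact h1
  have hcomp : ∀ x, IsCompact (F x) := by
    intro x
    have h1 : Topology.IsClosedEmbedding (f x) := by
      have h2 : Topology.IsClosedEmbedding (Subtype.val : W → E) :=
        W.closed_of_finiteDimensional.isClosedEmbedding_subtypeVal
      have h3 : (1 + (n : ℝ)⁻¹) ≠ 0 := by positivity
      have h4 : f x = (Homeomorph.addRight (-((n : ℝ)⁻¹ • (x : E)))) ∘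
          (Homeomorph.smulOfNeZero (1 + (n : ℝ)⁻¹) h3) ∘ (Homeomorph.addLeft c₀) ∘
          (Subtype.val : W → E) := by
        funext w
        simp [f, sub_eq_add_neg]
      rw [h4]
      exact (Homeomorph.isClosedEmbedding _).comp
        ((Homeomorph.isClosedEmbedding _).comp ((Homeomorph.isClosedEmbedding _).comp h2))
    exact h1.isCompact_preimage hCc
  have hint : ∀ I : Finset C, I.card ≤ Module.finrank ℝ W + 1 → (⋂ i ∈ I, F i).Nonempty := by
    intro I hI
    have hcard : Fintype.card I ≤ Fintype.card (Fin (n + 1)) := by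
      rw [Fintype.card_coe, Fintype.card_fin]
      omega
    obtain ⟨e⟩ := Function.Embedding.nonempty_of_card_le hcard
    let g : Fin (n + 1) → E := Function.extend e (fun i => ((i : C) : E)) fun _ => c₀
    have hg : ∀ i : I, g (e i) = ((i : C) : E) := fun i => e.injective.extend_apply _ _ _
    have hgC : ∀ j, g j ∈ C := by
      intro j
      by_cases hj : ∃ i, e i = j
      · obtain ⟨i, rfl⟩ := hj
        rw [hg]
        exact (i : C).2
      · have : g j = c₀ := Function.extend_apply' _ _ _ hj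
        rw [this]
        exact hc₀
    set c : E := ((n : ℝ) + 1)⁻¹ • ∑ j, g j with hc
    have hn1 : (0 : ℝ) < (n : ℝ) + 1 := by positivity
    have hcC : c ∈ C := by
      rw [hc, Finset.smul_sum]
      refine hC.sum_mem (fun j _ => by positivity) ?_ fun j _ => hgC j
      rw [Finset.sum_const, Finset.card_univ, Fintype.card_fin, nsmul_eq_mul]
      push_cast
      exact mul_inv_cancel₀ hn1.ne'
    have hcW : c - c₀ ∈ W := by
      have := vsub_mem_vectorSpan ℝ hcC hc₀
      rwa [vsub_eq_sub] at this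
    refine ⟨⟨c - c₀, hcW⟩, ?_⟩
    rw [mem_iInter₂]
    intro i hi
    show f i ⟨c - c₀, hcW⟩ ∈ C
    have e1 : f i ⟨c - c₀, hcW⟩ = ∑ j ∈ Finset.univ.erase (e ⟨i, hi⟩), (n : ℝ)⁻¹ • g j := by
      have h1 : ∑ j, g j = ∑ j ∈ Finset.univ.erase (e ⟨i, hi⟩), g j + g (e ⟨i, hi⟩) :=
        (Finset.sum_erase_add _ _ (Finset.mem_univ _)).symm
      have h2 : (1 + (n : ℝ)⁻¹) • c = (n : ℝ)⁻¹ • ∑ j, g j := by
        rw [hc, smul_smul]
        congr 1
        field_simp
      show (1 + (n : ℝ)⁻¹) • (c₀ + (c - c₀)) - (n : ℝ)⁻¹ • (i : E) = _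
      rw [add_sub_cancel, h2, h1, hg, smul_add, add_sub_cancel_right, Finset.smul_sum]
    rw [e1]
    refine hC.sum_mem (fun j _ => by positivity) ?_ fun j _ => hgC j
    rw [Finset.sum_const, Finset.card_erase_of_mem (Finset.mem_univ _), Finset.card_univ,
      Fintype.card_fin, nsmul_eq_mul, Nat.add_sub_cancel]
    exact mul_inv_cancel₀ hn0.ne'
  obtain ⟨w, hw⟩ := Convex.helly_theorem_compact' (𝕜 := ℝ) hconv hcomp hint
  rw [mem_iInter] at hw
  have key : ∀ x ∈ C, (c₀ + (w : E)) - (n : ℝ)⁻¹ • (x - (c₀ + (w : E))) ∈ C := by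
    intro x hx
    have h1 : f ⟨x, hx⟩ w ∈ C := hw ⟨x, hx⟩
    have e : (c₀ + (w : E)) - (n : ℝ)⁻¹ • (x - (c₀ + (w : E))) = f ⟨x, hx⟩ w := by
      simp only [f]
      module
    rw [e]
    exact h1
  refine ⟨c₀ + (w : E), ?_, key⟩
  have h1 := key c₀ hc₀
  have h2 := hC hc₀ h1 (show (0 : ℝ) ≤ 1 / (n + 1) by positivity)
    (show (0 : ℝ) ≤ n / (n + 1) by positivity) (by field_simp; ring)
  have e : (1 / ((n : ℝ) + 1)) • c₀ + ((n : ℝ) / (n + 1)) •
      ((c₀ + (w : E)) - (n : ℝ)⁻¹ • (c₀ - (c₀ + (w : E)))) = c₀ + (w : E) := by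
    have h3 : (c₀ + (w : E)) - (n : ℝ)⁻¹ • (c₀ - (c₀ + (w : E)))
        = c₀ + (1 + (n : ℝ)⁻¹) • (w : E) := by module
    rw [h3, smul_add, ← add_assoc, ← add_smul, smul_smul]
    have h4 : 1 / ((n : ℝ) + 1) + n / (n + 1) = 1 := by field_simp; ring
    have h5 : (n : ℝ) / (n + 1) * (1 + (n : ℝ)⁻¹) = 1 := by field_simp
    rw [h4, h5, one_smul, one_smul]
  rw [e] at h2
  exact h2

/-- the asymmetry of a Minkowski sum -/
theorem sum_asym {ι : Type*} [Fintype ι] (C : ι → Set E) (a : ℝ) (c : ι → E) (hc : ∀ i, c i ∈ C i)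
    (hca : ∀ i, ∀ x ∈ C i, c i - a⁻¹ • (x - c i) ∈ C i) :
    ∑ i, c i ∈ ∑ i, C i ∧ ∀ x ∈ ∑ i, C i, (∑ i, c i) - a⁻¹ • (x - ∑ i, c i) ∈ ∑ i, C i := by
  refine ⟨Set.finsetSum_mem_finsetSum _ _ _ fun i _ => hc i, fun x hx => ?_⟩
  rw [Set.mem_finsetSum] at hx
  obtain ⟨g, hg, rfl⟩ := hx
  have e : (∑ i, c i) - a⁻¹ • (∑ i, g i - ∑ i, c i) = ∑ i, (c i - a⁻¹ • (g i - c i)) := by
    rw [Finset.sum_sub_distrib, ← Finset.smul_sum, Finset.sum_sub_distrib]
  rw [e]
  exact Set.finsetSum_mem_finsetSum _ _ _ fun i _ => hca i _ (hg (Finset.mem_univ i))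

/-- support functions of Minkowski sums -/
theorem supp_sum {ι : Type*} [Fintype ι] (C : ι → Set E) (hC : ∀ i, IsCompact (C i))
    (hne : ∀ i, (C i).Nonempty) (hK : IsCompact (∑ i, C i)) (x : E) :
    supp (∑ i, C i) x = ∑ i, supp (C i) x := by
  choose y hy h1 h2 using fun i => supp_att (hC i) (hne i) x
  have hyK : ∑ i, y i ∈ ∑ i, C i := Set.finsetSum_mem_finsetSum _ _ _ fun i _ => hy i
  apply le_antisymm
  · obtain ⟨z, hz, h3, -⟩ := supp_att hK ⟨_, hyK⟩ x
    rw [h3]
    rw [Set.mem_finsetSum] at hz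
    obtain ⟨g, hg, rfl⟩ := hz
    rw [inner_sum]
    exact Finset.sum_le_sum fun i _ => le_supp (hC i) x (hg (Finset.mem_univ i))
  · have h3 := le_supp hK x hyK
    rw [inner_sum] at h3
    simp only [h1]
    exact h3

/-- moving the point -/
theorem shift_asym {K : Set E} (hK : Convex ℝ K) (o y : E) (hy : y ∈ K)
    (a : ℝ) (ha : 0 < a) (hKa : ∀ x ∈ K, o - a⁻¹ • (x - o) ∈ K) (η : ℝ) (hη : 0 < η)
    (hη1 : η ≤ 1) :
    ∀ x ∈ K, (o + (1 - η) • (y - o)) -
      ((1 + a - η) / η)⁻¹ • (x - (o + (1 - η) • (y - o))) ∈ K := by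
  intro x hx
  have h1a : 0 < 1 + a - η := by linarith
  have hp : (1 - η) * (1 + η / (1 + a - η)) + η * a / (1 + a - η) = 1 := by
    field_simp
    ring
  have hc1 : 0 ≤ (1 - η) * (1 + η / (1 + a - η)) := by
    have : 0 ≤ 1 - η := by linarith
    positivity
  have h2 := hK hy (hKa x hx) hc1 (by positivity : 0 ≤ η * a / (1 + a - η)) hp
  have e : (o + (1 - η) • (y - o)) -
      ((1 + a - η) / η)⁻¹ • (x - (o + (1 - η) • (y - o)))
      = ((1 - η) * (1 + η / (1 + a - η))) • y
        + (η * a / (1 + a - η)) • (o - a⁻¹ • (x - o)) := by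
    rw [inv_div]
    have e1 : o + (1 - η) • (y - o) = (1 - η) • y + η • o := by module
    rw [e1]
    match_scalars
    · field_simp
      ring
    · field_simp
      ring
    · field_simp
  rw [e]
  exact h2

theorem asym_interior {K : Set E} (hK : Convex ℝ K) (hKi : (interior K).Nonempty) (o : E)
    (a : ℝ) (ha : 0 < a) (hKa : ∀ x ∈ K, o - a⁻¹ • (x - o) ∈ K) : o ∈ interior K := by
  obtain ⟨x, hx⟩ := hKi
  have h1 := hKa x (interior_subset hx)
  have h2 := hK.combo_interior_self_mem_interior hx h1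
    (show (0 : ℝ) < 1 / (1 + a) by positivity) (show (0 : ℝ) ≤ a / (1 + a) by positivity)
    (by field_simp)
  have e : (1 / (1 + a)) • x + (a / (1 + a)) • (o - a⁻¹ • (x - o)) = o := by
    match_scalars
    · field_simp
      ring
    · field_simp
      ring
  rw [e] at h2
  exact h2

theorem shift_interior {K : Set E} (hK : Convex ℝ K) (o y : E) (ho : o ∈ interior K) (hy : y ∈ K)
    (η : ℝ) (hη : 0 < η) (hη1 : η ≤ 1) : o + (1 - η) • (y - o) ∈ interior K := by
  have h2 := hK.combo_interior_self_mem_interior ho hy hη (by linarith : 0 ≤ 1 - η) (by ring)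
  have e : η • o + (1 - η) • y = o + (1 - η) • (y - o) := by module
  rw [e] at h2
  exact h2

end

end Pool.Agent.T2h52.MS
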